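import Pool.Agent.Lib.SHR.Spec

/-! MP_9a4459_nt, part SHR, module Ana: numerical facts for the upper part. -/

set_option autoImplicit false

namespace Pool.Agent.Lib.SHR

open Filter Topology

namespace AnaM

theorem pow_exp (κ K : ℝ) (hκ : 0 < κ) (n : ℕ) :
    ∀ᶠ t : ℝ in atTop, K * t ^ n ≤ Real.exp (κ * t) := by
  have h1 := (isLittleO_pow_exp_pos_mul_atTop (n + 1) hκ).bound (show (0 : ℝ) < 1 by norm_num)
  filter_upwards [h1, eventually_ge_atTop (max K 1)] with t h1 h2
  have ht1 : 1 ≤ t := (le_max_right _ _).trans h2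
  have htK : K ≤ t := (le_max_left _ _).trans h2
  have ht0 : 0 < t := by linarith
  rw [one_mul, Real.norm_eq_abs, Real.norm_eq_abs, abs_of_pos (pow_pos ht0 _),
    abs_of_pos (Real.exp_pos _)] at h1
  calc K * t ^ n ≤ t * t ^ n := mul_le_mul_of_nonneg_right htK (pow_pos ht0 n).le
    _ = t ^ (n + 1) := by ring
    _ ≤ _ := h1

end AnaM

theorem tANA : S_ANA := by
  intro W δ η c0 c1 c2 hW hδ hη hc0 hc01 hc12 hηc
  have hW1 : (1 : ℝ) ≤ W := by exact_mod_cast hW
  have hsq : Tendsto (fun g : ℕ => √(g : ℝ)) atTop atTop :=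
    Real.tendsto_sqrt_atTop.comp tendsto_natCast_atTop_atTop
  set κ : ℝ := 1 - (1 + η) ^ 2 / c0 with hκ
  have hκ0 : 0 < κ := by
    have : (1 + η) ^ 2 / c0 < 1 := by
      rw [div_lt_one (by linarith)]
      exact hηc
    linarith
  set K1 : ℝ := 4 * c2 ^ 2 / δ ^ 2 * Real.exp ((1 + η) * W) with hK1
  have e1 := AnaM.pow_exp (c1 - c0) 2 (by linarith) 0
  have e2 := AnaM.pow_exp (c2 - c1) (4 * W + 2) (by linarith) 2
  have e3 := AnaM.pow_exp κ K1 hκ0 2
  have e4 := AnaM.pow_exp (c0 - 1) 1 (by linarith) 2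
  have e5 := AnaM.pow_exp 1 1 (by norm_num) 2
  have e5' : ∀ᶠ g : ℕ in atTop, 1 * (g : ℝ) ^ 2 ≤ Real.exp (1 * g) :=
    tendsto_natCast_atTop_atTop.eventually e5
  filter_upwards [hsq.eventually e1, hsq.eventually e2, hsq.eventually e3, hsq.eventually e4, e5',
    hsq.eventually (eventually_ge_atTop 1), hsq.eventually
      (eventually_ge_atTop ((W + η) * (1 + η) / (c0 * η))),
    hsq.eventually (eventually_ge_atTop (δ / (2 * c2)))] with g a1 a2 a3 a4 a5 a6 a7 a8
  set t : ℝ := √(g : ℝ) with ht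
  have ht0 : 0 < t := by linarith
  have hgt : (g : ℝ) = t * t := (Real.mul_self_sqrt (Nat.cast_nonneg g)).symm
  have hg0 : (0 : ℝ) < g := by rw [hgt]; positivity
  have hfl : (⌊Real.exp (c1 * t)⌋₊ : ℝ) ≤ Real.exp (c1 * t) := Nat.floor_le (Real.exp_pos _).le
  have hfl2 : Real.exp (c1 * t) < (⌊Real.exp (c1 * t)⌋₊ : ℝ) + 1 := Nat.lt_floor_add_one _
  have hex : Real.exp (c1 * t) = Real.exp (c0 * t) * Real.exp ((c1 - c0) * t) := by
    rw [← Real.exp_add]
    congr 1
    ring
  have h0 : 1 ≤ Real.exp (c0 * t) := Real.one_le_exp (by positivity)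
  have ha : Real.exp (c0 * t) ≤ (⌊Real.exp (c1 * t)⌋₊ : ℝ) := by
    rw [pow_zero, mul_one] at a1
    have : Real.exp (c0 * t) * 2 ≤ Real.exp (c1 * t) := by
      rw [hex]
      exact mul_le_mul_of_nonneg_left a1 (by linarith)
    linarith
  refine ⟨ha, ?_, ?_, ?_, ?_, ?_⟩
  · have hpos : 0 < (W : ℝ) * (⌊Real.exp (c1 * t)⌋₊ * (g + 2)) + W + g + 1 := by positivity
    rw [Real.log_le_iff_le_exp hpos]
    have h1 : 1 ≤ Real.exp (c1 * t) := by
      apply Real.one_le_exp
      have : 0 < c1 := by linarith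
      positivity
    have h2 : (W : ℝ) * (⌊Real.exp (c1 * t)⌋₊ * (g + 2)) + W + g + 1 ≤
        Real.exp (c1 * t) * ((W + 1) * t ^ 2 + 3 * W + 1) := by
      have h3 : (W : ℝ) * (⌊Real.exp (c1 * t)⌋₊ * (g + 2)) ≤
          W * (Real.exp (c1 * t) * (g + 2)) := by
        apply mul_le_mul_of_nonneg_left _ (by linarith)
        exact mul_le_mul_of_nonneg_right hfl (by linarith)
      have h4 : (W : ℝ) + g + 1 ≤ Real.exp (c1 * t) * (W + g + 1) := by
        have : (0 : ℝ) ≤ W + g + 1 := by linarith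
        nlinarith
      have h5 : Real.exp (c1 * t) * ((W + 1) * t ^ 2 + 3 * W + 1) =
          W * (Real.exp (c1 * t) * (g + 2)) + Real.exp (c1 * t) * (W + g + 1) := by
        rw [hgt]
        ring
      rw [h5]
      linarith
    have h6 : ((W : ℝ) + 1) * t ^ 2 + 3 * W + 1 ≤ (4 * W + 2) * t ^ 2 := by
      have : 1 ≤ t ^ 2 := one_le_pow₀ a6
      nlinarith
    have h7 : Real.exp (c2 * t) = Real.exp (c1 * t) * Real.exp ((c2 - c1) * t) := by
      rw [← Real.exp_add]
      congr 1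
      ring
    rw [h7]
    exact h2.trans (mul_le_mul_of_nonneg_left (h6.trans a2) (Real.exp_pos _).le)
  · have hc2 : 0 < c2 := by linarith
    have h1 : (δ / (2 * (c2 * t))) ^ 2 = (4 * c2 ^ 2 / δ ^ 2 * t ^ 2)⁻¹ := by
      field_simp
      ring
    rw [h1]
    have h2 : 0 < 4 * c2 ^ 2 / δ ^ 2 * t ^ 2 := by positivity
    rw [inv_mul_eq_div, le_div_iff₀ h2]
    have h3 : (1 + η) * (((1 + η) * g + W) / (c0 * t)) ≤ (1 - κ) * t + (1 + η) * W := by
      have h4 : (1 + η) * (((1 + η) * g + W) / (c0 * t)) =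
          (1 + η) ^ 2 / c0 * t + (1 + η) * W / (c0 * t) := by
        rw [hgt]
        field_simp
      rw [h4]
      have h5 : (1 + η) * W / (c0 * t) ≤ (1 + η) * W := by
        apply div_le_self (by positivity)
        nlinarith
      have h6 : (1 + η) ^ 2 / c0 = 1 - κ := by rw [hκ]; ring
      rw [h6]
      linarith
    have h7 : Real.exp (-((1 - κ) * t + (1 + η) * W)) ≤
        Real.exp (-((1 + η) * (((1 + η) * g + W) / (c0 * t)))) := Real.exp_le_exp.2 (by linarith)
    refine le_trans ?_ h7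
    have h8 : Real.exp (-((1 - κ) * t + (1 + η) * W)) =
        Real.exp (-t) * (Real.exp (κ * t) * (Real.exp ((1 + η) * W))⁻¹) := by
      rw [← Real.exp_neg, ← Real.exp_add, ← Real.exp_add]
      congr 1
      ring
    rw [h8]
    apply mul_le_mul_of_nonneg_left _ (Real.exp_pos _).le
    rw [← div_eq_mul_inv, le_div_iff₀ (Real.exp_pos _)]
    calc 4 * c2 ^ 2 / δ ^ 2 * t ^ 2 * Real.exp ((1 + η) * W) = K1 * t ^ 2 := by rw [hK1]; ring
      _ ≤ _ := a3
  · have h1 : (g : ℝ) ≤ (⌊Real.exp (c1 * t)⌋₊ : ℝ) * Real.exp (-t) := by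
      calc (g : ℝ) = 1 * t ^ 2 := by rw [hgt]; ring
        _ ≤ Real.exp ((c0 - 1) * t) := a4
        _ = Real.exp (c0 * t) * Real.exp (-t) := by
            rw [← Real.exp_add]
            congr 1
            ring
        _ ≤ _ := mul_le_mul_of_nonneg_right ha (Real.exp_pos _).le
    rw [Real.exp_neg, ← one_div]
    apply one_div_le_one_div_of_le (by positivity)
    rw [one_mul, one_mul] at a5
    exact a5.trans (Real.exp_le_exp.2 h1)
  · rw [div_le_div_iff₀ (by positivity) (by positivity)]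
    rw [div_le_iff₀ (by positivity)] at a7
    nlinarith
  · rw [div_le_iff₀ (by linarith)] at a8
    rw [div_le_one (by have : 0 < c2 := by linarith
                       positivity)]
    linarith

end Pool.Agent.Lib.SHR
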