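import Pool.Agent.Lib.SHR.Spec

/-! MP_9a4459_nt, part SHR, module Pat: the probability of a pattern in one window, and in
successive windows. -/

set_option autoImplicit false

namespace Pool.Agent.Lib.SHR

open Finset Filter Topology MeasureTheory
open Pool.Agent.Lib.MP_3ef1ab_nt

namespace PatM

variable {Ω : Type*} {m0 : MeasurableSpace Ω} {P : Measure Ω} [IsProbabilityMeasure P]
  {ℱ : Filtration ℕ m0} {X q : ℕ → Ω → ℝ}

theorem q_int (h : Mod P ℱ X q) (k : ℕ) : Integrable (q (k + 1)) P := by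
  apply bdd_int ((h.mq k).mono (ℱ.le _)) 1
  intro ω
  obtain ⟨h2, h3⟩ := h.q01 (k + 1) ω
  rw [abs_of_nonneg h2]
  exact h3

theorem X_int (h : Mod P ℱ X q) (k : ℕ) : Integrable (X k) P := by
  apply bdd_int ((h.adX k).mono (ℱ.le _)) 1
  intro ω
  rcases h.x01 k ω with h1 | h1 <;> rw [h1] <;> simp

theorem X1_meas (h : Mod P ℱ X q) (k : ℕ) : MeasurableSet[ℱ k] {ω | X k ω = 1} :=
  (h.adX k).measurable (measurableSet_singleton 1)

theorem X0_meas (h : Mod P ℱ X q) (k : ℕ) : MeasurableSet[ℱ k] {ω | X k ω = 0} :=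
  (h.adX k).measurable (measurableSet_singleton 0)

theorem set_eq (h : Mod P ℱ X q) (k : ℕ) (S : Set Ω) (hS : MeasurableSet[ℱ k] S) :
    P.real (S ∩ {ω | X (k + 1) ω = 1}) = ∫ ω in S, q (k + 1) ω ∂P := by
  have hS0 : MeasurableSet[m0] S := ℱ.le k _ hS
  have h1 : ∫ ω in S, (P[X (k + 1) | ℱ k]) ω ∂P = ∫ ω in S, X (k + 1) ω ∂P :=
    setIntegral_condExp (ℱ.le k) (X_int h (k + 1)) hS
  have h2 : ∫ ω in S, (P[X (k + 1) | ℱ k]) ω ∂P = ∫ ω in S, q (k + 1) ω ∂P := by
    apply integral_congr_ae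
    exact ae_restrict_of_ae (h.ce k)
  rw [← h2, h1]
  have h3 : X (k + 1) = ({ω | X (k + 1) ω = 1}).indicator (fun _ => (1 : ℝ)) := by
    funext ω
    rcases h.x01 (k + 1) ω with h4 | h4
    · rw [h4, Set.indicator_of_notMem]
      simp [h4]
    · rw [h4, Set.indicator_of_mem]
      exact h4
  have hm : MeasurableSet[m0] {ω | X (k + 1) ω = 1} := ℱ.le _ _ (X1_meas h (k + 1))
  conv_rhs => rw [h3]
  rw [integral_indicator hm, Measure.restrict_restrict hm, setIntegral_const, smul_eq_mul, mul_one,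
    Set.inter_comm]

theorem one_step (h : Mod P ℱ X q) (k : ℕ) (S : Set Ω) (hS : MeasurableSet[ℱ k] S) (t : Bool)
    (b : ℝ) (hb : ∀ ω ∈ S, b ≤ if t then q (k + 1) ω else 1 - q (k + 1) ω) :
    b * P.real S ≤ P.real (S ∩ {ω | X (k + 1) ω = if t then 1 else 0}) := by
  have hS0 : MeasurableSet[m0] S := ℱ.le k _ hS
  have h1 := set_eq h k S hS
  cases t with
  | true =>
    simp only [if_true] at hb ⊢
    rw [h1]
    have h2 : ∫ _ω in S, b ∂P ≤ ∫ ω in S, q (k + 1) ω ∂P := by
      apply setIntegral_mono_on (integrable_const b).integrableOn (q_int h k).integrableOn hS0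
      exact hb
    rw [setIntegral_const, smul_eq_mul] at h2
    linarith [mul_comm b (P.real S)]
  | false =>
    simp only [Bool.false_eq_true, if_false] at hb ⊢
    have h2 : ∫ ω in S, q (k + 1) ω ∂P ≤ ∫ _ω in S, (1 - b) ∂P := by
      apply setIntegral_mono_on (q_int h k).integrableOn (integrable_const (1 - b)).integrableOn hS0
      intro ω hω
      have := hb ω hω
      linarith
    rw [setIntegral_const, smul_eq_mul] at h2
    have hm : MeasurableSet[m0] {ω | X (k + 1) ω = 1} := ℱ.le _ _ (X1_meas h (k + 1))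
    have h3 : P.real (S ∩ {ω | X (k + 1) ω = 1}) + P.real (S \ {ω | X (k + 1) ω = 1}) =
        P.real S := measureReal_inter_add_diff hm
    have h4 : S \ {ω | X (k + 1) ω = 1} = S ∩ {ω | X (k + 1) ω = 0} := by
      ext ω
      simp only [Set.mem_diff, Set.mem_inter_iff, Set.mem_setOf_eq]
      constructor
      · rintro ⟨a1, a2⟩
        rcases h.x01 (k + 1) ω with h5 | h5
        · exact ⟨a1, h5⟩
        · exact absurd h5 a2
      · rintro ⟨a1, a2⟩
        refine ⟨a1, ?_⟩
        rw [a2]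
        norm_num
    rw [h4] at h3
    nlinarith

/-- the state after `i` steps -/
def Zs (X : ℕ → Ω → ℝ) (B : ℕ → Set Ω) (τ : ℕ → Bool) (n : ℕ) (D : Set Ω) (i : ℕ) : Set Ω :=
  D ∩ {ω | (∀ l < i, ω ∈ B (n + l)) → ∀ l < i, X (n + l + 1) ω = if τ l then 1 else 0}

theorem all_meas {B : ℕ → Set Ω} (hB : ∀ k, MeasurableSet[ℱ k] (B k)) (n i m : ℕ)
    (hm : n + i ≤ m + 1) :
    MeasurableSet[ℱ m] {ω | ∀ l < i, ω ∈ B (n + l)} := by
  have e : {ω | ∀ l < i, ω ∈ B (n + l)} = ⋂ l ∈ range i, B (n + l) := by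
    ext ω
    simp
  rw [e]
  apply Finset.measurableSet_biInter
  intro l hl
  rw [mem_range] at hl
  exact ℱ.mono (by omega) _ (hB (n + l))

theorem pat_meas (h : Mod P ℱ X q) (τ : ℕ → Bool) (n i m : ℕ) (hm : n + i ≤ m) :
    MeasurableSet[ℱ m] {ω | ∀ l < i, X (n + l + 1) ω = if τ l then 1 else 0} := by
  have e : {ω | ∀ l < i, X (n + l + 1) ω = if τ l then 1 else 0} =
      ⋂ l ∈ range i, {ω | X (n + l + 1) ω = if τ l then 1 else 0} := by
    ext ω
    simp
  rw [e]
  apply Finset.measurableSet_biInter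
  intro l hl
  rw [mem_range] at hl
  apply ℱ.mono (show n + l + 1 ≤ m by omega)
  cases τ l with
  | true => simpa using X1_meas h (n + l + 1)
  | false => simpa using X0_meas h (n + l + 1)

theorem Zs_meas (h : Mod P ℱ X q) {B : ℕ → Set Ω} (hB : ∀ k, MeasurableSet[ℱ k] (B k))
    (τ : ℕ → Bool) (n : ℕ) {D : Set Ω} (hD : MeasurableSet[ℱ n] D) (i : ℕ) :
    MeasurableSet[ℱ (n + i)] (Zs X B τ n D i) := by
  have e : Zs X B τ n D i = D ∩ ({ω | ∀ l < i, ω ∈ B (n + l)}ᶜ ∪
      {ω | ∀ l < i, X (n + l + 1) ω = if τ l then 1 else 0}) := by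
    ext ω
    simp only [Zs, Set.mem_inter_iff, Set.mem_setOf_eq, Set.mem_union, Set.mem_compl_iff]
    tauto
  rw [e]
  exact (ℱ.mono (by omega) _ hD).inter
    ((all_meas hB n i (n + i) (by omega)).compl.union (pat_meas h τ n i (n + i) le_rfl))

theorem Zs_step (h : Mod P ℱ X q) {B : ℕ → Set Ω} (hB : ∀ k, MeasurableSet[ℱ k] (B k))
    (τ : ℕ → Bool) (n : ℕ) {D : Set Ω} (hD : MeasurableSet[ℱ n] D) (i : ℕ) (b : ℝ)
    (hb0 : 0 ≤ b) (hb1 : b ≤ 1)
    (hb : ∀ ω ∈ B (n + i), b ≤ if τ i then q (n + i + 1) ω else 1 - q (n + i + 1) ω) :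
    b * P.real (Zs X B τ n D i) ≤ P.real (Zs X B τ n D (i + 1)) := by
  set Z := Zs X B τ n D i with hZ
  set S : Set Ω := Z ∩ ({ω | ∀ l < i + 1, ω ∈ B (n + l)} ∩
    {ω | ∀ l < i, X (n + l + 1) ω = if τ l then 1 else 0}) with hS
  have hZm : MeasurableSet[ℱ (n + i)] Z := Zs_meas h hB τ n hD i
  have hSm : MeasurableSet[ℱ (n + i)] S :=
    hZm.inter ((all_meas hB n (i + 1) (n + i) (by omega)).inter
      (pat_meas h τ n i (n + i) le_rfl))
  have hSm0 : MeasurableSet[m0] S := ℱ.le _ _ hSm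
  have h1 : b * P.real S ≤ P.real (S ∩ {ω | X (n + i + 1) ω = if τ i then 1 else 0}) := by
    apply one_step h (n + i) S hSm (τ i) b
    intro ω hω
    exact hb ω (hω.2.1 i (by omega))
  have hsub : (Z \ S) ∪ (S ∩ {ω | X (n + i + 1) ω = if τ i then 1 else 0}) ⊆
      Zs X B τ n D (i + 1) := by
    intro ω hω
    rcases hω with ⟨a1, a2⟩ | ⟨a1, a2⟩
    · refine ⟨a1.1, ?_⟩
      intro hall
      exfalso
      apply a2
      refine ⟨a1, hall, ?_⟩
      exact a1.2 fun l hl => hall l (by omega)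
    · refine ⟨a1.1.1, ?_⟩
      intro _ l hl
      rcases Nat.lt_succ_iff_lt_or_eq.1 hl with h2 | h2
      · exact a1.2.2 l h2
      · rw [h2]
        exact a2
  have h2 : P.real ((Z \ S) ∪ (S ∩ {ω | X (n + i + 1) ω = if τ i then 1 else 0})) ≤
      P.real (Zs X B τ n D (i + 1)) := measureReal_mono hsub
  have hXm : MeasurableSet[m0] {ω | X (n + i + 1) ω = if τ i then (1 : ℝ) else 0} := by
    cases τ i with
    | true => simpa using ℱ.le _ _ (X1_meas h (n + i + 1))
    | false => simpa using ℱ.le _ _ (X0_meas h (n + i + 1))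
  have h3 : P.real ((Z \ S) ∪ (S ∩ {ω | X (n + i + 1) ω = if τ i then 1 else 0})) =
      P.real (Z \ S) + P.real (S ∩ {ω | X (n + i + 1) ω = if τ i then 1 else 0}) := by
    apply measureReal_union
    · apply Set.disjoint_left.2
      intro ω h5 h6
      exact h5.2 h6.1
    · exact hSm0.inter hXm
    · exact measure_ne_top _ _
    · exact measure_ne_top _ _
  have h4 : P.real (Z ∩ S) + P.real (Z \ S) = P.real Z := measureReal_inter_add_diff hSm0
  have h5 : Z ∩ S = S := Set.inter_eq_right.2 Set.inter_subset_left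
  rw [h5] at h4
  have h6 : 0 ≤ P.real (Z \ S) := measureReal_nonneg
  have h7 : b * P.real (Z \ S) ≤ P.real (Z \ S) := mul_le_of_le_one_left h6 hb1
  nlinarith

end PatM

theorem tPAT.{u} : S_PAT.{u} := by
  intro Ω m0 P _ ℱ X q h B hB τ b n L D hD hb01 hb
  have hD0 : MeasurableSet[m0] D := ℱ.le _ _ hD
  have key : ∀ i, i ≤ L → (∏ l ∈ range i, b l) * P.real D ≤ P.real (PatM.Zs X B τ n D i) := by
    intro i
    induction i with
    | zero =>
      intro _
      have e : PatM.Zs X B τ n D 0 = D := by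
        ext ω
        simp [PatM.Zs]
      rw [e]
      simp
    | succ i ih =>
      intro hi
      have h1 := ih (by omega)
      have h2 := PatM.Zs_step h hB τ n hD i (b i) (hb01 i (by omega)).1 (hb01 i (by omega)).2
        (hb i (by omega))
      rw [prod_range_succ]
      calc (∏ l ∈ range i, b l) * b i * P.real D
          = b i * ((∏ l ∈ range i, b l) * P.real D) := by ring
        _ ≤ b i * P.real (PatM.Zs X B τ n D i) :=
            mul_le_mul_of_nonneg_left h1 (hb01 i (by omega)).1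
        _ ≤ _ := h2
  have h1 := key L le_rfl
  have e : D ∩ {ω | (∀ i < L, ω ∈ B (n + i)) ∧
      ¬ ∀ i < L, X (n + i + 1) ω = if τ i then 1 else 0} = D \ PatM.Zs X B τ n D L := by
    ext ω
    simp only [PatM.Zs, Set.mem_inter_iff, Set.mem_setOf_eq, Set.mem_diff]
    tauto
  rw [e]
  have hZm : MeasurableSet[m0] (PatM.Zs X B τ n D L) := ℱ.le _ _ (PatM.Zs_meas h hB τ n hD L)
  have h2 : P.real (D ∩ PatM.Zs X B τ n D L) + P.real (D \ PatM.Zs X B τ n D L) = P.real D :=
    measureReal_inter_add_diff hZm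
  have h3 : D ∩ PatM.Zs X B τ n D L = PatM.Zs X B τ n D L :=
    Set.inter_eq_right.2 Set.inter_subset_left
  rw [h3] at h2
  linarith

theorem tWIN.{u} : S_WIN.{u} := by
  intro Ω m0 P _ ℱ X q h B hB τ b n L J Q hQ0 hQ1 hn hb01 hQ hb
  have hmono : ∀ j, n j ≤ n (j + 1) := fun j => (Nat.le_add_right _ _).trans (hn j)
  have hmono' : Monotone n := monotone_nat_of_le_succ hmono
  set E : ℕ → Set Ω := fun j => {ω | (∀ i < L, ω ∈ B (n j + i)) ∧
    ¬ ∀ i < L, X (n j + i + 1) ω = if τ i then 1 else 0} with hE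
  have hEm : ∀ j m, n j + L ≤ m → MeasurableSet[ℱ m] (E j) := by
    intro j m hm
    have e : E j = {ω | ∀ i < L, ω ∈ B (n j + i)} ∩
        {ω | ∀ i < L, X (n j + i + 1) ω = if τ i then 1 else 0}ᶜ := by
      ext ω
      rfl
    rw [e]
    exact (PatM.all_meas hB (n j) L m (by omega)).inter (PatM.pat_meas h τ (n j) L m hm).compl
  have key : ∀ J', J' ≤ J → MeasurableSet[ℱ (n J')] {ω | ∀ j < J', ω ∈ E j} ∧
      P.real {ω | ∀ j < J', ω ∈ E j} ≤ (1 - Q) ^ J' := by
    intro J'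
    induction J' with
    | zero =>
      intro _
      have e : {ω : Ω | ∀ j < 0, ω ∈ E j} = Set.univ := by
        ext ω
        simp
      rw [e]
      refine ⟨MeasurableSet.univ, ?_⟩
      simp
    | succ j ih =>
      intro hj
      obtain ⟨i1, i2⟩ := ih (by omega)
      have e : {ω | ∀ j' < j + 1, ω ∈ E j'} = {ω | ∀ j' < j, ω ∈ E j'} ∩ E j := by
        ext ω
        simp only [Set.mem_setOf_eq, Set.mem_inter_iff]
        constructor
        · intro h1
          exact ⟨fun j' hj' => h1 j' (by omega), h1 j (by omega)⟩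
        · rintro ⟨h1, h2⟩ j' hj'
          rcases Nat.lt_succ_iff_lt_or_eq.1 hj' with h3 | h3
          · exact h1 j' h3
          · rw [h3]
            exact h2
      rw [e]
      constructor
      · exact (ℱ.mono (hmono j) _ i1).inter (hEm j _ (hn j))
      · have h1 := tPAT Ω m0 P ℱ X q h B hB τ (b j) (n j) L _ i1 (hb01 j (by omega))
          (hb j (by omega))
        have h2 := hQ j (by omega)
        have h3 : 0 ≤ P.real {ω | ∀ j' < j, ω ∈ E j'} := measureReal_nonneg
        calc _ ≤ (1 - ∏ i ∈ range L, b j i) * P.real {ω | ∀ j' < j, ω ∈ E j'} := h1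
          _ ≤ (1 - Q) * P.real {ω | ∀ j' < j, ω ∈ E j'} :=
              mul_le_mul_of_nonneg_right (by linarith) h3
          _ ≤ (1 - Q) * (1 - Q) ^ j := mul_le_mul_of_nonneg_left i2 (by linarith)
          _ = _ := by ring
  exact (key J le_rfl).2

end Pool.Agent.Lib.SHR
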