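import Pool.Agent.Lib.SHR.Per
import Pool.Agent.Lib.SHR.Pat
import Pool.Agent.Lib.SHR.Ana

/-! MP_9a4459_nt, part SHR, module Upp: upper part, one `g`. -/

set_option autoImplicit false

namespace Pool.Agent.Lib.SHR

open Finset Filter Topology MeasureTheory
open Pool.Agent.Lib.MP_3ef1ab_nt

namespace UppM

theorem exp_le (η u : ℝ) (hη : 0 < η) (hu0 : 0 ≤ u) (hu : u ≤ η / (1 + η)) :
    Real.exp (-((1 + η) * u)) ≤ 1 - u := by
  have h1 : (1 + η)⁻¹ ≤ 1 - u := by
    have : η / (1 + η) = 1 - (1 + η)⁻¹ := by
      field_simp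
      ring
    linarith
  have h0 : 0 < (1 + η)⁻¹ := by positivity
  have h2 : 0 < 1 - u := by linarith
  have h3 : (1 - u)⁻¹ ≤ 1 + η := by
    have := inv_anti₀ h0 h1
    rwa [inv_inv] at this
  have h4 : (1 - u)⁻¹ = 1 + u * (1 - u)⁻¹ := by
    field_simp
    ring
  have h5 : (1 - u)⁻¹ ≤ Real.exp ((1 + η) * u) := by
    calc (1 - u)⁻¹ = u * (1 - u)⁻¹ + 1 := by linarith [h4]
      _ ≤ Real.exp (u * (1 - u)⁻¹) := Real.add_one_le_exp _
      _ ≤ _ := by
        apply Real.exp_le_exp.2
        rw [mul_comm (1 + η)]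
        exact mul_le_mul_of_nonneg_left h3 hu0
  rw [Real.exp_neg]
  have h6 := inv_anti₀ (by positivity : (0 : ℝ) < (1 - u)⁻¹) h5
  rwa [inv_inv] at h6

end UppM

theorem tUPP.{u} : S_UPP.{u} := by
  intro Ω m0 P _ ℱ X q h W ρ hper δ η c0 c1 c2 hδ hδ0 hη hηδ hc0 hc01 hc12 hηc
  obtain ⟨psum, -, pW, pmul, -⟩ := tPER W ρ hper
  have hW := hper.W_pos
  filter_upwards [tANA W δ η c0 c1 c2 hW hδ0 hη hc0 hc01 hc12 hηc, eventually_ge_atTop 1] with
    g hA hg a ha hρa hρag
  obtain ⟨A1, A2, A3, A4, A5, A6⟩ := hA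
  set y := ⌊Real.exp (c1 * √(g : ℝ))⌋₊ with hy
  set t : ℝ := √(g : ℝ) with ht
  have hg0 : (0 : ℝ) < g := by exact_mod_cast hg
  have ht0 : 0 < t := Real.sqrt_pos.2 hg0
  have hc0t : 0 < c0 * t := by positivity
  have hc2t : 0 < c2 * t := by
    have : 0 < c2 := by linarith
    positivity
  have hy1r : (1 : ℝ) ≤ y := (Real.one_le_exp hc0t.le).trans A1
  have hy1 : 1 ≤ y := by exact_mod_cast hy1r
  have hylog : c0 * t ≤ Real.log y := by
    rw [Real.le_log_iff_exp_le (by linarith)]
    exact A1
  set m : ℕ → ℕ := fun j => W * (y + j * (g + 1)) + a with hm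
  set n : ℕ → ℕ := fun j => m j - 1 with hn
  have hmy : ∀ j, y ≤ m j := by
    intro j
    have h1 : y ≤ y + j * (g + 1) := Nat.le_add_right _ _
    have h2 : y + j * (g + 1) ≤ W * (y + j * (g + 1)) := Nat.le_mul_of_pos_left _ hW
    simp only [hm]
    omega
  have hnm : ∀ j, n j + 1 = m j := by
    intro j
    have := hmy j
    simp only [hn]
    omega
  set B : ℕ → Set Ω := fun k => {ω | |Real.log ((k + 1 : ℕ) : ℝ) * q (k + 1) ω - ρ (k + 1)| ≤ η}
    with hB
  have hBm : ∀ k, MeasurableSet[ℱ k] (B k) := by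
    intro k
    have hf : StronglyMeasurable[ℱ k]
        (fun ω => Real.log ((k + 1 : ℕ) : ℝ) * q (k + 1) ω - ρ (k + 1)) :=
      ((h.mq k).const_mul _).sub stronglyMeasurable_const
    have e : B k = (fun ω => Real.log ((k + 1 : ℕ) : ℝ) * q (k + 1) ω - ρ (k + 1)) ⁻¹'
        Set.Icc (-η) η := by
      ext ω
      simp only [hB, Set.mem_setOf_eq, Set.mem_preimage, Set.mem_Icc, abs_le]
    rw [e]
    exact hf.measurable measurableSet_Icc
  set τ : ℕ → Bool := fun i => decide (i = 0 ∨ i = g) with hτ
  set b : ℕ → ℕ → ℝ := fun j i => if i = 0 ∨ i = g then δ / (2 * (c2 * t)) else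
    Real.exp (-((1 + η) * ((ρ (m j + i) + η) / (c0 * t)))) with hb
  have hQ0 : 0 ≤ Real.exp (-t) := (Real.exp_pos _).le
  have hQ1 : Real.exp (-t) ≤ 1 := by
    rw [Real.exp_le_one_iff]
    linarith
  have hstep : ∀ j, n j + (g + 1) ≤ n (j + 1) := by
    intro j
    have e : m (j + 1) = m j + W * (g + 1) := by
      simp only [hm]
      ring
    have h1 : g + 1 ≤ W * (g + 1) := Nat.le_mul_of_pos_left _ hW
    have h2 := hnm j
    have h3 := hnm (j + 1)
    omega
  have hb01 : ∀ j < y, ∀ i < g + 1, 0 ≤ b j i ∧ b j i ≤ 1 := by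
    intro j _ i _
    simp only [hb]
    split_ifs with h1
    · exact ⟨by positivity, A6⟩
    · refine ⟨(Real.exp_pos _).le, ?_⟩
      rw [Real.exp_le_one_iff]
      have : 0 ≤ (1 + η) * ((ρ (m j + i) + η) / (c0 * t)) := by
        have := hper.nonneg (m j + i)
        positivity
      linarith
  have hprod : ∀ j < y, Real.exp (-t) ≤ ∏ i ∈ range (g + 1), b j i := by
    intro j _
    refine A3.trans ?_
    obtain ⟨g', hg'⟩ : ∃ g', g = g' + 1 := ⟨g - 1, by omega⟩
    have e0 : b j 0 = δ / (2 * (c2 * t)) := if_pos (Or.inl rfl)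
    have eg : b j g = δ / (2 * (c2 * t)) := if_pos (Or.inr rfl)
    have e1 : ∏ i ∈ range (g + 1), b j i = (∏ i ∈ range g', b j (i + 1)) * b j 0 * b j g := by
      rw [prod_range_succ]
      congr 1
      rw [hg', prod_range_succ']
    have e2 : ∏ i ∈ range g', b j (i + 1) =
        Real.exp (-((1 + η) * ((∑ i ∈ range g', ρ (m j + i + 1) + η * g') / (c0 * t)))) := by
      have e3 : ∀ i ∈ range g', b j (i + 1) =
          Real.exp (-((1 + η) * ((ρ (m j + i + 1) + η) / (c0 * t)))) := by
        intro i hi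
        rw [mem_range] at hi
        have e4 : b j (i + 1) = Real.exp (-((1 + η) * ((ρ (m j + (i + 1)) + η) / (c0 * t)))) :=
          if_neg (by omega)
        rw [e4, show m j + (i + 1) = m j + i + 1 from rfl]
      rw [prod_congr rfl e3, ← Real.exp_sum]
      congr 1
      rw [sum_neg_distrib, ← mul_sum, ← sum_div, sum_add_distrib, sum_const, card_range,
        nsmul_eq_mul, mul_comm η]
    rw [e1, e0, eg, e2]
    have h1 := (psum (m j) g').2
    have hg'r : (g : ℝ) = g' + 1 := by rw [hg']; push_cast; ring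
    have h2 : (∑ i ∈ range g', ρ (m j + i + 1) + η * g') / (c0 * t) ≤
        ((1 + η) * g + W) / (c0 * t) := by
      apply div_le_div_of_nonneg_right _ hc0t.le
      rw [hg'r]
      nlinarith
    have h3 : Real.exp (-((1 + η) * (((1 + η) * g + W) / (c0 * t)))) ≤
        Real.exp (-((1 + η) * ((∑ i ∈ range g', ρ (m j + i + 1) + η * g') / (c0 * t)))) := by
      apply Real.exp_le_exp.2
      have := mul_le_mul_of_nonneg_left h2 (show (0 : ℝ) ≤ 1 + η by linarith)
      linarith
    have h4 : 0 ≤ (δ / (2 * (c2 * t))) ^ 2 := sq_nonneg _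
    calc (δ / (2 * (c2 * t))) ^ 2 * Real.exp (-((1 + η) * (((1 + η) * g + W) / (c0 * t))))
        ≤ (δ / (2 * (c2 * t))) ^ 2 * Real.exp (-((1 + η) *
          ((∑ i ∈ range g', ρ (m j + i + 1) + η * g') / (c0 * t)))) :=
          mul_le_mul_of_nonneg_left h3 h4
      _ = _ := by ring
  have hcond : ∀ j < y, ∀ i < g + 1, ∀ ω ∈ B (n j + i),
      b j i ≤ if τ i then q (n j + i + 1) ω else 1 - q (n j + i + 1) ω := by
    intro j hj i hi ω hω
    have ek : n j + i + 1 = m j + i := by
      have := hnm j
      omega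
    simp only [hB, Set.mem_setOf_eq] at hω
    rw [ek] at hω ⊢
    set k := m j + i with hk
    have hky : y ≤ k := (hmy j).trans (Nat.le_add_right _ _)
    have hkyr : (y : ℝ) ≤ k := by exact_mod_cast hky
    have hk0 : (0 : ℝ) < k := by linarith
    have hlog1 : c0 * t ≤ Real.log k := hylog.trans (Real.log_le_log (by linarith) hkyr)
    have hlog2 : Real.log k ≤ c2 * t := by
      refine le_trans ?_ A2
      apply Real.log_le_log hk0
      have h1 : k ≤ W * (y * (g + 2)) + W + g + 1 := by
        have h2 : y + j * (g + 1) ≤ y * (g + 2) := by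
          obtain ⟨y', hy'⟩ : ∃ y', y = j + 1 + y' := ⟨y - (j + 1), by omega⟩
          rw [hy']
          nlinarith
        have h3 : W * (y + j * (g + 1)) ≤ W * (y * (g + 2)) := Nat.mul_le_mul_left _ h2
        simp only [hk, hm]
        omega
      exact_mod_cast h1
    have hlog0 : 0 < Real.log k := by linarith
    have hab := abs_le.1 hω
    obtain ⟨q0, q1⟩ := h.q01 k ω
    by_cases hi2 : i = 0 ∨ i = g
    · have ebb : b j i = δ / (2 * (c2 * t)) := by
        simp only [hb]
        rw [if_pos hi2]
      have eτ : τ i = true := by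
        simp only [hτ]
        exact decide_eq_true hi2
      rw [ebb, eτ, if_pos rfl]
      have hρk : 0 < ρ k := by
        rcases hi2 with h1 | h1
        · have : k = W * (y + j * (g + 1)) + a := by
            simp only [hk, hm]
            omega
          rw [this, pmul]
          exact hρa
        · have : k = W * (y + j * (g + 1)) + (a + g) := by
            simp only [hk, hm]
            omega
          rw [this, pmul]
          exact hρag
      have h1 := hδ k hρk
      have h2 : δ / 2 ≤ Real.log k * q k ω := by linarith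
      have h3 : Real.log k * q k ω ≤ c2 * t * q k ω := mul_le_mul_of_nonneg_right hlog2 q0
      rw [div_le_iff₀ (by positivity)]
      linarith
    · have ebb : b j i = Real.exp (-((1 + η) * ((ρ k + η) / (c0 * t)))) := by
        simp only [hb]
        rw [if_neg hi2]
      have eτ : τ i = false := by
        simp only [hτ]
        exact decide_eq_false hi2
      rw [ebb, eτ]
      simp only [Bool.false_eq_true, if_false]
      have hu : (ρ k + η) / (c0 * t) ≤ η / (1 + η) := by
        refine le_trans ?_ A5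
        apply div_le_div_of_nonneg_right _ hc0t.le
        have := pW k
        linarith
      have hu0 : 0 ≤ (ρ k + η) / (c0 * t) := by
        have := hper.nonneg k
        positivity
      have h1 := UppM.exp_le η _ hη hu0 hu
      have h2 : q k ω ≤ (ρ k + η) / (c0 * t) := by
        rw [le_div_iff₀ hc0t]
        have h3 : q k ω * (c0 * t) ≤ q k ω * Real.log k := mul_le_mul_of_nonneg_left hlog1 q0
        linarith [mul_comm (q k ω) (Real.log k)]
      linarith
  have hwin := tWIN Ω m0 P ℱ X q h B hBm τ b n (g + 1) y (Real.exp (-t)) hQ0 hQ1 hstep hb01 hprod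
    hcond
  have hsub : NoGap X q ρ η W y g a ⊆ {ω | ∀ j < y, (∀ i < g + 1, ω ∈ B (n j + i)) ∧
      ¬ ∀ i < g + 1, X (n j + i + 1) ω = if τ i then 1 else 0} := by
    intro ω hω j hj
    obtain ⟨h1, h2⟩ := hω j hj
    constructor
    · intro i hi
      have ek : n j + i + 1 = m j + i := by
        have := hnm j
        omega
      simp only [hB, Set.mem_setOf_eq]
      rw [ek]
      exact h1 i hi
    · intro hall
      apply h2
      have ek : ∀ i, n j + i + 1 = m j + i := by
        intro i
        have := hnm j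
        omega
      refine ⟨?_, ?_, ?_⟩
      · have h3 := hall 0 (by omega)
        rw [ek 0] at h3
        have : τ 0 = true := by simp [hτ]
        rw [this, if_pos rfl] at h3
        exact h3
      · intro i hi0 hig
        have h3 := hall i (by omega)
        rw [ek i] at h3
        have : τ i = false := by
          simp only [hτ]
          exact decide_eq_false (by omega)
        rw [this] at h3
        simpa using h3
      · have h3 := hall g (by omega)
        rw [ek g] at h3
        have : τ g = true := by simp [hτ]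
        rw [this, if_pos rfl] at h3
        exact h3
  have h1 : P.real (NoGap X q ρ η W y g a) ≤ (1 - Real.exp (-t)) ^ y :=
    (measureReal_mono hsub).trans hwin
  refine h1.trans ?_
  refine le_trans ?_ A4
  have h2 : 1 - Real.exp (-t) ≤ Real.exp (-Real.exp (-t)) := by
    have := Real.add_one_le_exp (-Real.exp (-t))
    linarith
  calc (1 - Real.exp (-t)) ^ y ≤ Real.exp (-Real.exp (-t)) ^ y :=
        pow_le_pow_left₀ (by linarith) h2 y
    _ = _ := by
        rw [← Real.exp_nat_mul]
        congr 1
        ring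

end Pool.Agent.Lib.SHR
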