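import Pool.Agent.Lib.SHR.Per

/-! MP_9a4459_nt, part SHR, module Lowd: the deterministic lower part. -/

set_option autoImplicit false

namespace Pool.Agent.Lib.SHR

open Finset Filter Topology

namespace LowdM

theorem ev_small (κ : ℝ) (hκ : 0 < κ) : ∀ᶠ g : ℕ in atTop, √(g : ℝ) ≤ κ * g ∧ 1 ≤ κ * (g : ℝ) ∧
    √(g : ℝ) * Real.log g ≤ κ * g := by
  have h0 : Tendsto (fun g : ℕ => (g : ℝ)) atTop atTop := tendsto_natCast_atTop_atTop
  have h1 : ∀ᶠ x : ℝ in atTop, 1 / κ ≤ x := eventually_ge_atTop _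
  have h2 : ∀ᶠ x : ℝ in atTop, 1 / κ ^ 2 ≤ x := eventually_ge_atTop _
  have h3 := (isLittleO_log_rpow_atTop (show (0 : ℝ) < 1 / 2 by norm_num)).bound hκ
  filter_upwards [h0.eventually h1, h0.eventually h2, h0.eventually h3, eventually_ge_atTop 1] with
    g a1 a2 a3 a4
  have hg : (0 : ℝ) < g := by exact_mod_cast a4
  have hs : √(g : ℝ) * √(g : ℝ) = g := Real.mul_self_sqrt hg.le
  have hs0 : 0 < √(g : ℝ) := Real.sqrt_pos.2 hg
  refine ⟨?_, ?_, ?_⟩
  · have h4 : 1 ≤ κ * √(g : ℝ) := by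
      have h5 : √(1 / κ ^ 2) ≤ √(g : ℝ) := Real.sqrt_le_sqrt a2
      rw [Real.sqrt_div zero_le_one, Real.sqrt_one, Real.sqrt_sq hκ.le, div_le_iff₀ hκ] at h5
      linarith [mul_comm κ √(g : ℝ)]
    nlinarith
  · rw [div_le_iff₀ hκ] at a1
    linarith [mul_comm κ (g : ℝ)]
  · rw [Real.norm_eq_abs, Real.norm_eq_abs] at a3
    have h4 : Real.log (g : ℝ) ≤ κ * √(g : ℝ) := by
      have h5 := (le_abs_self _).trans a3
      rw [← Real.sqrt_eq_rpow, abs_of_pos hs0] at h5
      exact h5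
    nlinarith

end LowdM

theorem tLOWD : S_LOWD := by
  intro W ρ hper x q hq0 hlim c hc0 hc1 hev
  obtain ⟨hsum, -⟩ := tPER W ρ hper
  set η : ℝ := (1 - c) / 2 with hη
  have hη0 : 0 < η := by rw [hη]; linarith
  have hη1 : η < 1 := by rw [hη]; linarith
  have hgap : 0 < (1 - η) ^ 2 - c ^ 2 := by
    have : c < 1 - η := by rw [hη]; linarith
    nlinarith
  have hN : ∀ᶠ k : ℕ in atTop, |Real.log k * q k - ρ k| < η := by
    have h1 := (Metric.tendsto_nhds.1 hlim) η hη0
    filter_upwards [h1] with k hk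
    rw [Real.dist_eq, sub_zero] at hk
    exact hk
  obtain ⟨N, hN⟩ := eventually_atTop.1 hN
  set κ : ℝ := ((1 - η) ^ 2 - c ^ 2) / (4 + W) with hκ
  have hW0 : (0 : ℝ) ≤ W := Nat.cast_nonneg W
  have hκ0 : 0 < κ := div_pos hgap (by linarith)
  have hκe : κ * (4 + W) = (1 - η) ^ 2 - c ^ 2 := by
    rw [hκ]
    field_simp
  have hsq : ∀ᶠ g : ℕ in atTop, max N 2 ≤ Nat.sqrt g := by
    filter_upwards [eventually_ge_atTop (max N 2 * max N 2)] with g hg
    exact Nat.le_sqrt.2 hg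
  filter_upwards [hev, LowdM.ev_small κ hκ0, hsq, eventually_ge_atTop 4] with g h1 h2 h3 h4
  intro m hm
  by_contra hcon
  rw [not_lt] at hcon
  obtain ⟨b1, b2, b3⟩ := h2
  have hg : (0 : ℝ) < g := by
    have : 0 < g := by omega
    exact_mod_cast this
  have hs0 : 0 < √(g : ℝ) := Real.sqrt_pos.2 hg
  have hss : √(g : ℝ) * √(g : ℝ) = g := Real.mul_self_sqrt hg.le
  have hL : 0 < c * √(g : ℝ) := by positivity
  have hmg : (m : ℝ) + g ≤ Real.exp (c * √(g : ℝ)) := by
    rw [← Real.log_le_iff_le_exp (by positivity)]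
    exact hcon
  set r := Nat.sqrt g with hr
  have hrg : r * r ≤ g := Nat.sqrt_le g
  have hr2 : 2 ≤ r := (le_max_right _ _).trans h3
  have hrN : N ≤ r := (le_max_left _ _).trans h3
  have hrg1 : r + 1 ≤ g := by nlinarith
  set s := max m r with hs
  have hsm : m ≤ s := le_max_left _ _
  have hsr : r ≤ s := le_max_right _ _
  have hsub : s ≤ m + r := max_le (by omega) (by omega)
  have hsg : (s : ℝ) ≤ m + g := by
    have : s ≤ m + g := by omega
    exact_mod_cast this
  have h5 := h1 s (hsg.trans hmg)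
  have hnb : nb g + 1 + r = g := by
    unfold nb
    rw [← hr]
    omega
  have hlow : ∀ i ∈ range (nb g), (1 - η) * ((ρ (s + i + 1) - η) / (c * √(g : ℝ))) ≤
      Real.log η * x (s + i + 1) - (η - 1) * q (s + i + 1) := by
    intro i hi
    rw [mem_range] at hi
    set k := s + i + 1 with hk
    have hk1 : m < k := by omega
    have hk2 : k < m + g := by
      rcases le_total m r with h6 | h6
      · have : s = r := max_eq_right h6
        omega
      · have : s = m := max_eq_left h6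
        omega
    rw [hm k hk1 hk2, mul_zero, zero_sub]
    have hk3 : N ≤ k := by omega
    have hk4 : (1 : ℝ) < k := by
      have : 1 < k := by omega
      exact_mod_cast this
    have hlogk : 0 < Real.log k := Real.log_pos hk4
    have hlogk2 : Real.log k ≤ c * √(g : ℝ) := by
      refine le_trans ?_ hcon
      apply Real.log_le_log (by linarith)
      have : k ≤ m + g := hk2.le
      exact_mod_cast this
    have hab := hN k hk3
    rw [abs_lt] at hab
    have hq : (ρ k - η) / (c * √(g : ℝ)) ≤ q k := by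
      rw [div_le_iff₀ hL]
      rcases le_total (ρ k) η with h7 | h7
      · have : 0 ≤ q k * (c * √(g : ℝ)) := mul_nonneg (hq0 k) hL.le
        linarith
      · have : Real.log k * q k ≤ q k * (c * √(g : ℝ)) := by
          rw [mul_comm]
          exact mul_le_mul_of_nonneg_left hlogk2 (hq0 k)
        linarith
    have := mul_le_mul_of_nonneg_left hq (show (0 : ℝ) ≤ 1 - η by linarith)
    linarith
  have h6 := sum_le_sum hlow
  have h7 : ∑ i ∈ range (nb g), (1 - η) * ((ρ (s + i + 1) - η) / (c * √(g : ℝ))) =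
      (1 - η) * ((∑ i ∈ range (nb g), ρ (s + i + 1) - η * nb g) / (c * √(g : ℝ))) := by
    rw [← mul_sum, ← sum_div, sum_sub_distrib, sum_const, card_range, nsmul_eq_mul]
    ring
  rw [h7] at h6
  have h8 : (1 - η) * ((∑ i ∈ range (nb g), ρ (s + i + 1) - η * nb g) / (c * √(g : ℝ))) <
      c * √(g : ℝ) + 2 * Real.log g := lt_of_le_of_lt h6 h5
  have h9 := (hsum s (nb g)).1
  have h10 : (1 - η) * (∑ i ∈ range (nb g), ρ (s + i + 1) - η * nb g) <
      (c * √(g : ℝ) + 2 * Real.log g) * (c * √(g : ℝ)) := by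
    rw [← mul_div_assoc, div_lt_iff₀ hL] at h8
    exact h8
  have hrr : (r : ℝ) ≤ √(g : ℝ) := Real.nat_sqrt_le_real_sqrt
  have hnbr : (nb g : ℝ) = g - 1 - r := by
    have : ((nb g + 1 + r : ℕ) : ℝ) = g := by rw [hnb]
    push_cast at this
    linarith
  have h11 : (1 - η) * ((1 - η) * (g - 1 - √(g : ℝ)) - W) ≤
      (1 - η) * (∑ i ∈ range (nb g), ρ (s + i + 1) - η * nb g) := by
    apply mul_le_mul_of_nonneg_left _ (by linarith)
    have : (1 - η) * (g - 1 - √(g : ℝ)) ≤ (1 - η) * nb g := by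
      apply mul_le_mul_of_nonneg_left _ (by linarith)
      rw [hnbr]
      linarith
    linarith
  have h12 : (c * √(g : ℝ) + 2 * Real.log g) * (c * √(g : ℝ)) =
      c ^ 2 * g + 2 * c * (√(g : ℝ) * Real.log g) := by
    have : (c * √(g : ℝ) + 2 * Real.log g) * (c * √(g : ℝ)) =
        c ^ 2 * (√(g : ℝ) * √(g : ℝ)) + 2 * c * (√(g : ℝ) * Real.log g) := by ring
    rw [this, hss]
  rw [h12] at h10
  have h13 : 2 * c * (√(g : ℝ) * Real.log g) ≤ 2 * c * (κ * g) :=
    mul_le_mul_of_nonneg_left b3 (by linarith)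
  have h14 : (1 - η) ^ 2 * (1 + √(g : ℝ)) ≤ 2 * (κ * g) := by
    have h15 : (1 - η) ^ 2 ≤ 1 := by nlinarith
    have h16 : (1 - η) ^ 2 * (1 + √(g : ℝ)) ≤ 1 * (1 + √(g : ℝ)) :=
      mul_le_mul_of_nonneg_right h15 (by linarith)
    linarith
  have h17 : (1 - η) * W ≤ W * (κ * g) := by
    have h18 : (1 - η) * W ≤ 1 * W := mul_le_mul_of_nonneg_right (by linarith) hW0
    have h19 : (W : ℝ) * 1 ≤ W * (κ * g) := mul_le_mul_of_nonneg_left b2 hW0
    linarith
  have h20 : 2 * c * (κ * g) ≤ 2 * (κ * g) := by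
    have : 0 < κ * (g : ℝ) := by positivity
    nlinarith
  have h21 : ((1 - η) ^ 2 - c ^ 2) * g = κ * (4 + W) * g := by rw [hκe]
  nlinarith

end Pool.Agent.Lib.SHR
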