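import Pool.Agent.Lib.SHR.Upp

/-! MP_9a4459_nt, part SHR, module Up: upper part. -/

set_option autoImplicit false

namespace Pool.Agent.Lib.SHR

open Finset Filter Topology MeasureTheory
open Pool.Agent.Lib.MP_3ef1ab_nt
open scoped ENNReal

theorem tUP.{u} : S_UP.{u} := by
  classical
  intro Ω m0 P _ ℱ X q h W ρ hper hlim c hc
  obtain ⟨-, ⟨δ, hδ0, hδ⟩, -, -, pred⟩ := tPER W ρ hper
  have hW := hper.W_pos
  set c0 : ℝ := 1 + (c - 1) / 4 with hc0
  set c1 : ℝ := 1 + (c - 1) / 2 with hc1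
  set c2 : ℝ := 1 + 3 * (c - 1) / 4 with hc2
  have h0 : 1 < c0 := by rw [hc0]; linarith
  have h01 : c0 < c1 := by rw [hc0, hc1]; linarith
  have h12 : c1 < c2 := by rw [hc1, hc2]; linarith
  have h2c : c2 < c := by rw [hc2]; linarith
  set η : ℝ := min (δ / 2) (min (1 / 2) ((c0 - 1) / 3)) with hη
  have hη0 : 0 < η := lt_min (by linarith) (lt_min (by norm_num) (by linarith))
  have hη1 : η ≤ δ / 2 := min_le_left _ _
  have hη2 : η ≤ 1 / 2 := (min_le_right _ _).trans (min_le_left _ _)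
  have hη3 : η ≤ (c0 - 1) / 3 := (min_le_right _ _).trans (min_le_right _ _)
  have hηc : (1 + η) ^ 2 < c0 := by nlinarith
  have hA := tANA W δ η c0 c1 c2 hW hδ0 hη0 h0 h01 h12 hηc
  have hU := tUPP Ω m0 P ℱ X q h W ρ hper δ η c0 c1 c2 hδ hδ0 hη0 hη1 h0 h01 h12 hηc
  obtain ⟨G0, hG0⟩ := eventually_atTop.1 hU
  set V : ℕ → Set Ω := fun g => if G0 ≤ g then
    ⋃ a ∈ (range W).filter (fun a => 0 < ρ a ∧ 0 < ρ (a + g)),
      NoGap X q ρ η W ⌊Real.exp (c1 * √(g : ℝ))⌋₊ g a else ∅ with hV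
  have hs : (∑' g : ℕ, P (V g)) ≠ ∞ := by
    have h1 : ∀ g : ℕ, P (V g) ≤ ENNReal.ofReal (W * (1 / (g : ℝ) ^ 2)) := by
      intro g
      by_cases hg : G0 ≤ g
      · simp only [hV, if_pos hg]
        calc _ ≤ ∑ a ∈ (range W).filter (fun a => 0 < ρ a ∧ 0 < ρ (a + g)),
              P (NoGap X q ρ η W ⌊Real.exp (c1 * √(g : ℝ))⌋₊ g a) :=
              measure_biUnion_finset_le _ _
          _ ≤ ∑ _a ∈ (range W).filter (fun a => 0 < ρ a ∧ 0 < ρ (a + g)),
              ENNReal.ofReal (1 / (g : ℝ) ^ 2) := by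
              apply sum_le_sum
              intro a ha
              rw [mem_filter, mem_range] at ha
              have h2 := hG0 g hg a ha.1 ha.2.1 ha.2.2
              rw [← ofReal_measureReal]
              exact ENNReal.ofReal_le_ofReal h2
          _ ≤ ∑ _a ∈ range W, ENNReal.ofReal (1 / (g : ℝ) ^ 2) :=
              sum_le_sum_of_subset (filter_subset _ _)
          _ = _ := by
              rw [sum_const, card_range, nsmul_eq_mul, ENNReal.ofReal_mul (Nat.cast_nonneg _),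
                ENNReal.ofReal_natCast]
      · simp only [hV, if_neg hg, measure_empty]
        exact zero_le
    have h2 : (∑' g : ℕ, ENNReal.ofReal (W * (1 / (g : ℝ) ^ 2))) ≠ ∞ :=
      ((Real.summable_one_div_nat_pow.2 (by norm_num)).mul_left _).tsum_ofReal_ne_top
    exact ne_top_of_le_ne_top h2 (ENNReal.tsum_le_tsum h1)
  have hsq : Tendsto (fun g : ℕ => √(g : ℝ)) atTop atTop :=
    Real.tendsto_sqrt_atTop.comp tendsto_natCast_atTop_atTop
  filter_upwards [ae_eventually_notMem hs, hlim] with ω hω hl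
  have hN : ∀ᶠ k : ℕ in atTop, |Real.log k * q k ω - ρ k| ≤ η := by
    have h1 := (Metric.tendsto_nhds.1 hl) η hη0
    filter_upwards [h1] with k hk
    rw [Real.dist_eq, sub_zero] at hk
    exact hk.le
  obtain ⟨N, hN⟩ := eventually_atTop.1 hN
  filter_upwards [hω, hA, hsq.eventually (eventually_ge_atTop (N : ℝ)),
    eventually_ge_atTop (max G0 1)] with g h1 h2 h3 h4
  rintro ⟨a0, ha0, ha1⟩
  obtain ⟨a, haW, hρa, hρag⟩ := pred a0 g ha0 ha1
  obtain ⟨A1, A2, -, -, -, -⟩ := h2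
  set y := ⌊Real.exp (c1 * √(g : ℝ))⌋₊ with hy
  have hG : G0 ≤ g := (le_max_left _ _).trans h4
  have hg1 : 1 ≤ g := (le_max_right _ _).trans h4
  have hg0 : (0 : ℝ) < g := by exact_mod_cast hg1
  have ht0 : 0 < √(g : ℝ) := Real.sqrt_pos.2 hg0
  have hyN : N ≤ y := by
    have h5 : (N : ℝ) ≤ y := by
      have h6 := Real.add_one_le_exp (c0 * √(g : ℝ))
      have h7 : √(g : ℝ) ≤ c0 * √(g : ℝ) := le_mul_of_one_le_left ht0.le h0.le
      linarith
    exact_mod_cast h5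
  have h5 : ω ∉ NoGap X q ρ η W y g a := by
    intro hcon
    apply h1
    simp only [hV, if_pos hG, Set.mem_iUnion]
    exact ⟨a, mem_filter.2 ⟨mem_range.2 haW, hρa, hρag⟩, hcon⟩
  simp only [NoGap, Set.mem_setOf_eq, not_forall] at h5
  obtain ⟨j, hj, h6⟩ := h5
  set m := W * (y + j * (g + 1)) + a with hm
  have hmy : y ≤ m := by
    have h7 : y + j * (g + 1) ≤ W * (y + j * (g + 1)) := Nat.le_mul_of_pos_left _ hW
    have h8 : y ≤ y + j * (g + 1) := Nat.le_add_right _ _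
    omega
  have h7 : ∀ i < g + 1, |Real.log ((m + i : ℕ) : ℝ) * q (m + i) ω - ρ (m + i)| ≤ η := by
    intro i _
    exact hN (m + i) (by omega)
  have h8 : X m ω = 1 ∧ (∀ i, 0 < i → i < g → X (m + i) ω = 0) ∧ X (m + g) ω = 1 := by
    by_contra hcon
    exact h6 ⟨h7, hcon⟩
  obtain ⟨b1, b2, b3⟩ := h8
  refine ⟨m, b1, ?_, b3, ?_⟩
  · intro k hk1 hk2
    obtain ⟨i, rfl⟩ : ∃ i, k = m + i := ⟨k - m, by omega⟩
    exact b2 i (by omega) (by omega)
  · have h9 : m + g ≤ W * (y * (g + 2)) + W + g + 1 := by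
      have h10 : y + j * (g + 1) ≤ y * (g + 2) := by
        obtain ⟨y', hy'⟩ : ∃ y', y = j + 1 + y' := ⟨y - (j + 1), by omega⟩
        rw [hy']
        nlinarith
      have h11 : W * (y + j * (g + 1)) ≤ W * (y * (g + 2)) := Nat.mul_le_mul_left _ h10
      omega
    have h10 : (m : ℝ) + g ≤ W * (y * (g + 2)) + W + g + 1 := by exact_mod_cast h9
    have h11 : Real.log ((m : ℝ) + g) ≤ c2 * √(g : ℝ) :=
      (Real.log_le_log (by positivity) h10).trans A2
    have h12 : c2 * √(g : ℝ) < c * √(g : ℝ) := mul_lt_mul_of_pos_right h2c ht0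
    linarith

end Pool.Agent.Lib.SHR
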