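import Pool.Agent.Lib.SHR.Lowp
import Pool.Agent.Lib.SHR.Lowd
import Pool.Agent.Lib.SHR.Up

/-! MP_9a4459_nt, part SHR, module Fin: Shanks's law for random sets. -/

set_option autoImplicit false

namespace Pool.Agent.Lib.SHR

open Finset Filter Topology MeasureTheory
open Pool.Agent.Lib.MP_3ef1ab_nt Pool.Agent.Results.MP_9a4459_nt

theorem tFIN.{u} : S_FIN.{u} := by
  intro Ω m0 P _ ℱ A hA W ρ hper hρA hq
  have hM := mod_of (P := P) hA
  have h3 : ∀ᵐ ω ∂P, ∀ k : ℕ, (P[Xi A (k + 1) | ℱ k]) ω = Qc P ℱ A (k + 1) ω :=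
    ae_all_iff.2 fun k => Qc_ae hA k
  have hlim : ∀ᵐ ω ∂P, Tendsto (fun k : ℕ => Real.log k * Qc P ℱ A k ω - ρ k) atTop (𝓝 0) := by
    filter_upwards [h3, hq] with ω k3 k4
    rw [← tendsto_add_atTop_iff_nat 1]
    refine k4.congr fun k => ?_
    rw [← k3 k]
    rfl
  have hup : ∀ᵐ ω ∂P, ∀ j : ℕ, ∀ᶠ g : ℕ in atTop, (∃ a, 0 < ρ a ∧ 0 < ρ (a + g)) →
      ∃ m : ℕ, Xi A m ω = 1 ∧ (∀ k : ℕ, m < k → k < m + g → Xi A k ω = 0) ∧
        Xi A (m + g) ω = 1 ∧ Real.log ((m : ℝ) + g) < (1 + 1 / ((j : ℝ) + 1)) * √(g : ℝ) := by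
    refine ae_all_iff.2 fun j => ?_
    have hj : (0 : ℝ) < 1 / ((j : ℝ) + 1) := by positivity
    exact tUP Ω m0 P ℱ (Xi A) (Qc P ℱ A) hM W ρ hper hlim _ (by linarith)
  have hlow1 : ∀ᵐ ω ∂P, ∀ j : ℕ, ∀ᶠ g : ℕ in atTop, ∀ s : ℕ,
      (s : ℝ) ≤ Real.exp ((1 - 1 / ((j : ℝ) + 2)) * √(g : ℝ)) →
      Sx (Xi A) (Qc P ℱ A) (Real.log ((1 - (1 - 1 / ((j : ℝ) + 2))) / 2)) s (nb g) ω <
        (1 - 1 / ((j : ℝ) + 2)) * √(g : ℝ) + 2 * Real.log g := by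
    refine ae_all_iff.2 fun j => ?_
    have hj : (1 : ℝ) / ((j : ℝ) + 2) < 1 := by
      rw [div_lt_one (by positivity)]
      have : (0 : ℝ) ≤ j := Nat.cast_nonneg j
      linarith
    exact tLOWP Ω m0 P ℱ (Xi A) (Qc P ℱ A) hM _ _ (by linarith)
  filter_upwards [hup, hlow1, hlim] with ω k1 k2 k3
  have k4 : ∀ j : ℕ, ∀ᶠ g : ℕ in atTop, ∀ m : ℕ,
      (∀ k : ℕ, m < k → k < m + g → Xi A k ω = 0) →
      (1 - 1 / ((j : ℝ) + 2)) * √(g : ℝ) < Real.log ((m : ℝ) + g) := by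
    intro j
    set c : ℝ := 1 - 1 / ((j : ℝ) + 2) with hc
    have hj0 : (0 : ℝ) < 1 / ((j : ℝ) + 2) := by positivity
    have hj : (1 : ℝ) / ((j : ℝ) + 2) < 1 := by
      rw [div_lt_one (by positivity)]
      have : (0 : ℝ) ≤ j := Nat.cast_nonneg j
      linarith
    have hc0 : 0 < c := by rw [hc]; linarith
    have hc1 : c < 1 := by rw [hc]; linarith
    apply tLOWD W ρ hper (fun k => Xi A k ω) (fun k => Qc P ℱ A k ω)
      (fun k => (hM.q01 k ω).1) k3 c hc0 hc1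
    filter_upwards [k2 j] with g hg s hs
    have h1 := hg s hs
    unfold Sx at h1
    rw [Real.exp_log (by linarith)] at h1
    exact h1
  have hX : ∀ k, ω ∈ A k ↔ Xi A k ω = 1 := by
    intro k
    unfold Xi
    by_cases h : ω ∈ A k
    · simp [h]
    · simp [h]
  have hX0 : ∀ k, Xi A k ω = 0 ↔ ω ∉ A k := by
    intro k
    rw [hX k]
    rcases Xi_01 A k ω with h | h <;> rw [h] <;> norm_num
  have hρ : ∀ k, ω ∈ A k → 0 < ρ k := by
    intro k hk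
    refine lt_of_le_of_ne (hper.nonneg k) fun h0 => ?_
    rw [hρA k h0.symm] at hk
    exact hk
  constructor
  · intro ε hε
    obtain ⟨j, hj⟩ := exists_nat_one_div_lt hε
    obtain ⟨G, hG⟩ := eventually_atTop.1 ((k1 j).and ((k4 j).and (eventually_ge_atTop 1)))
    refine ⟨G, fun g q hg hq hp hfirst => ?_⟩
    obtain ⟨p, hp1, hp2, hp3⟩ := hp
    obtain ⟨u1, u2, u3⟩ := hG g hg
    have hg0 : (0 : ℝ) < g := by exact_mod_cast u3
    have ht0 : 0 < √(g : ℝ) := Real.sqrt_pos.2 hg0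
    subst hp2
    obtain ⟨m, m1, m2, m3, m4⟩ := u1 ⟨p, hρ p hp1, hρ (p + g) hq⟩
    have hle : p + g ≤ m + g := by
      by_contra hcon
      rw [not_le] at hcon
      apply hfirst (m + g) hcon ((hX _).2 m3)
      exact ⟨m, (hX m).2 m1, rfl, fun k a1 a2 => (hX0 k).1 (m2 k a1 a2)⟩
    have hler : ((p + g : ℕ) : ℝ) ≤ (m : ℝ) + g := by exact_mod_cast hle
    have hpg : (0 : ℝ) < ((p + g : ℕ) : ℝ) := by
      have : 0 < p + g := by omega
      exact_mod_cast this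
    have v1 : Real.log ((p + g : ℕ) : ℝ) < (1 + 1 / ((j : ℝ) + 1)) * √(g : ℝ) :=
      lt_of_le_of_lt (Real.log_le_log hpg hler) m4
    have v2 := u2 p fun k a1 a2 => (hX0 k).2 (hp3 k a1 a2)
    have v3 : (p : ℝ) + g = ((p + g : ℕ) : ℝ) := by push_cast; ring
    rw [v3] at v2
    have v4 : (1 : ℝ) / ((j : ℝ) + 2) ≤ 1 / ((j : ℝ) + 1) := by
      apply one_div_le_one_div_of_le (by positivity)
      linarith
    rw [abs_lt]
    constructor
    · have : 1 - 1 / ((j : ℝ) + 2) < Real.log ((p + g : ℕ) : ℝ) / √(g : ℝ) := by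
        rw [lt_div_iff₀ ht0]
        exact v2
      linarith
    · have : Real.log ((p + g : ℕ) : ℝ) / √(g : ℝ) < 1 + 1 / ((j : ℝ) + 1) := by
        rw [div_lt_iff₀ ht0]
        exact v1
      linarith
  · obtain ⟨G, hG⟩ := eventually_atTop.1 ((k1 0).and (eventually_ge_atTop 1))
    refine ⟨G, fun g hg ha => ?_⟩
    obtain ⟨u1, u3⟩ := hG g hg
    obtain ⟨m, m1, m2, m3, -⟩ := u1 ha
    refine ⟨m, (hX m).2 m1, (hX _).2 m3, by omega, fun k a1 a2 => (hX0 k).1 (m2 k a1 a2)⟩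

end Pool.Agent.Lib.SHR
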