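import Pool.Agent.Lib.SHR.Spec

/-! MP_9a4459_nt, part SHR, module Lowp: Borel-Cantelli for the lower part. -/

set_option autoImplicit false

namespace Pool.Agent.Lib.SHR

open Finset Filter Topology MeasureTheory
open Pool.Agent.Lib.MP_3ef1ab_nt
open scoped ENNReal

theorem tLOWP.{u} : S_LOWP.{u} := by
  intro Ω m0 P _ ℱ X q h θ c hc
  set M : ℕ → ℕ := fun g => ⌊Real.exp (c * √(g : ℝ))⌋₊ + 1 with hM
  set U : ℕ → Set Ω := fun g => ⋃ s ∈ range (M g),
    {ω | c * √(g : ℝ) + 2 * Real.log g ≤ Sx X q θ s (nb g) ω} with hU
  have hs : (∑' g : ℕ, P (U g)) ≠ ∞ := by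
    have h1 : ∀ g : ℕ, P (U g) ≤ ENNReal.ofReal (2 * (1 / (g : ℝ) ^ 2) + if g = 0 then 2 else 0) := by
      intro g
      rcases Nat.eq_zero_or_pos g with hg | hg
      · subst hg
        simp only [if_true]
        refine prob_le_one.trans ?_
        rw [← ENNReal.ofReal_one]
        apply ENNReal.ofReal_le_ofReal
        norm_num
      · have hg0 : (0 : ℝ) < g := by exact_mod_cast hg
        have hne : g ≠ 0 := by omega
        rw [if_neg hne, add_zero]
        have hexp1 : 1 ≤ Real.exp (c * √(g : ℝ)) := Real.one_le_exp (by positivity)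
        have hMg : ((M g : ℕ) : ℝ) ≤ 2 * Real.exp (c * √(g : ℝ)) := by
          have := Nat.floor_le (Real.exp_pos (c * √(g : ℝ))).le
          simp only [hM]
          push_cast
          linarith
        calc P (U g) ≤ ∑ s ∈ range (M g),
              P {ω | c * √(g : ℝ) + 2 * Real.log g ≤ Sx X q θ s (nb g) ω} :=
              measure_biUnion_finset_le _ _
          _ ≤ ∑ _s ∈ range (M g), ENNReal.ofReal (Real.exp (-(c * √(g : ℝ))) *
                (1 / (g : ℝ) ^ 2)) := by
              apply sum_le_sum
              intro s _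
              have h2 := h.markov θ s (nb g) (c * √(g : ℝ) + 2 * Real.log g)
              have h3 : Real.exp (-(c * √(g : ℝ) + 2 * Real.log g)) =
                  Real.exp (-(c * √(g : ℝ))) * (1 / (g : ℝ) ^ 2) := by
                rw [neg_add, Real.exp_add]
                congr 1
                rw [Real.exp_neg, mul_comm, Real.exp_mul, Real.exp_log hg0, one_div]
                norm_cast
              rw [h3] at h2
              rw [← ofReal_measureReal]
              exact ENNReal.ofReal_le_ofReal h2
          _ = ENNReal.ofReal (M g * (Real.exp (-(c * √(g : ℝ))) * (1 / (g : ℝ) ^ 2))) := by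
              rw [sum_const, card_range, nsmul_eq_mul, ENNReal.ofReal_mul (Nat.cast_nonneg _),
                ENNReal.ofReal_natCast]
          _ ≤ _ := by
              apply ENNReal.ofReal_le_ofReal
              have h4 : Real.exp (c * √(g : ℝ)) * Real.exp (-(c * √(g : ℝ))) = 1 := by
                rw [← Real.exp_add, add_neg_cancel, Real.exp_zero]
              have h5 : 0 ≤ Real.exp (-(c * √(g : ℝ))) * (1 / (g : ℝ) ^ 2) := by positivity
              calc (M g : ℝ) * (Real.exp (-(c * √(g : ℝ))) * (1 / (g : ℝ) ^ 2))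
                  ≤ (2 * Real.exp (c * √(g : ℝ))) *
                    (Real.exp (-(c * √(g : ℝ))) * (1 / (g : ℝ) ^ 2)) :=
                    mul_le_mul_of_nonneg_right hMg h5
                _ = 2 * (Real.exp (c * √(g : ℝ)) * Real.exp (-(c * √(g : ℝ)))) *
                    (1 / (g : ℝ) ^ 2) := by ring
                _ = _ := by rw [h4, mul_one]
    have h2 : (∑' g : ℕ, ENNReal.ofReal (2 * (1 / (g : ℝ) ^ 2) + if g = 0 then 2 else 0)) ≠ ∞ := by
      apply Summable.tsum_ofReal_ne_top
      apply Summable.add
      · exact (Real.summable_one_div_nat_pow.2 (by norm_num)).mul_left 2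
      · apply summable_of_ne_finset_zero (s := {0})
        intro b hb
        rw [mem_singleton] at hb
        rw [if_neg hb]
    exact ne_top_of_le_ne_top h2 (ENNReal.tsum_le_tsum h1)
  filter_upwards [ae_eventually_notMem hs] with ω hω
  filter_upwards [hω] with g hg s hsg
  by_contra hcon
  apply hg
  simp only [hU, Set.mem_iUnion, mem_range]
  refine ⟨s, ?_, not_lt.1 hcon⟩
  simp only [hM]
  exact Nat.lt_succ_of_le (Nat.le_floor hsg)

end Pool.Agent.Lib.SHR
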