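import Pool.Agent.Lib.SHR.Spec

/-! MP_9a4459_nt, part SHR, module Per: periodic weights. -/

set_option autoImplicit false

namespace Pool.Agent.Lib.SHR

open Finset

namespace PerM

theorem per_mul {W : ℕ} {ρ : ℕ → ℝ} (h : Per W ρ) (k j : ℕ) : ρ (W * j + k) = ρ k := by
  induction j with
  | zero => simp
  | succ j ih =>
    have : W * (j + 1) + k = W * j + k + W := by ring
    rw [this, h.per, ih]

theorem mod_eq {W : ℕ} {ρ : ℕ → ℝ} (h : Per W ρ) (k : ℕ) : ρ (k % W) = ρ k := by
  conv_rhs => rw [← Nat.div_add_mod k W]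
  rw [per_mul h]

theorem full {W : ℕ} {ρ : ℕ → ℝ} (h : Per W ρ) (s : ℕ) : ∑ i ∈ range W, ρ (s + i) = W := by
  induction s with
  | zero => simpa using h.mean
  | succ s ih =>
    have h1 := sum_range_succ (fun i => ρ (s + i)) W
    have h2 := sum_range_succ' (fun i => ρ (s + i)) W
    have h3 : ρ (s + W) = ρ s := h.per s
    have h4 : ∑ i ∈ range W, ρ (s + 1 + i) = ∑ i ∈ range W, ρ (s + (i + 1)) :=
      sum_congr rfl fun i _ => by rw [show s + 1 + i = s + (i + 1) by ring]
    rw [h4]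
    simp only [add_zero] at h2
    linarith

theorem bounds {W : ℕ} {ρ : ℕ → ℝ} (h : Per W ρ) (s n : ℕ) :
    (n : ℝ) - W ≤ ∑ i ∈ range n, ρ (s + i) ∧ ∑ i ∈ range n, ρ (s + i) ≤ (n : ℝ) + W := by
  induction n using Nat.strong_induction_on generalizing s with
  | _ n ih =>
    by_cases hn : n < W
    · have h1 : ∑ i ∈ range n, ρ (s + i) ≤ ∑ i ∈ range W, ρ (s + i) :=
        sum_le_sum_of_subset_of_nonneg (range_mono hn.le) fun i _ _ => h.nonneg _
      rw [full h s] at h1
      have h2 : 0 ≤ ∑ i ∈ range n, ρ (s + i) := sum_nonneg fun i _ => h.nonneg _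
      have h3 : (n : ℝ) ≤ W := by exact_mod_cast hn.le
      have h4 : (0 : ℝ) ≤ n := Nat.cast_nonneg n
      constructor <;> linarith
    · obtain ⟨m, rfl⟩ : ∃ m, n = W + m := ⟨n - W, by omega⟩
      have hW := h.W_pos
      obtain ⟨h1, h2⟩ := ih m (by omega) (s + W)
      have h3 : ∑ i ∈ range (W + m), ρ (s + i) =
          ∑ i ∈ range W, ρ (s + i) + ∑ i ∈ range m, ρ (s + W + i) := by
        rw [sum_range_add]
        congr 1
        exact sum_congr rfl fun i _ => by rw [add_assoc]
      rw [h3, full h s]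
      push_cast
      constructor <;> linarith

end PerM

theorem tPER : S_PER := by
  intro W ρ h
  refine ⟨?_, ?_, ?_, ?_, ?_⟩
  · intro s n
    have h1 := PerM.bounds h (s + 1) n
    have h2 : ∑ i ∈ range n, ρ (s + 1 + i) = ∑ i ∈ range n, ρ (s + i + 1) :=
      sum_congr rfl fun i _ => by rw [show s + 1 + i = s + i + 1 by ring]
    rw [h2] at h1
    exact h1
  · classical
    by_cases hne : ((range W).filter fun k => 0 < ρ k).Nonempty
    · obtain ⟨k0, hk0, hmin⟩ := exists_min_image _ ρ hne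
      rw [mem_filter] at hk0
      refine ⟨ρ k0, hk0.2, fun k hk => ?_⟩
      have h1 := hmin (k % W) (by
        rw [mem_filter, mem_range, PerM.mod_eq h]
        exact ⟨Nat.mod_lt _ h.W_pos, hk⟩)
      rwa [PerM.mod_eq h] at h1
    · refine ⟨1, one_pos, fun k hk => ?_⟩
      exfalso
      apply hne
      refine ⟨k % W, ?_⟩
      rw [mem_filter, mem_range, PerM.mod_eq h]
      exact ⟨Nat.mod_lt _ h.W_pos, hk⟩
  · intro k
    rw [← PerM.mod_eq h]
    have h1 := single_le_sum (f := ρ) (s := range W) (fun i _ => h.nonneg i)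
      (mem_range.2 (Nat.mod_lt k h.W_pos))
    rw [h.mean] at h1
    exact h1
  · intro k j
    exact PerM.per_mul h k j
  · intro a g h1 h2
    refine ⟨a % W, Nat.mod_lt _ h.W_pos, ?_, ?_⟩
    · rwa [PerM.mod_eq h]
    · have h3 : ρ (a % W + g) = ρ (a + g) := by
        conv_rhs => rw [← Nat.div_add_mod a W, add_assoc]
        rw [PerM.per_mul h]
      rwa [h3]

end Pool.Agent.Lib.SHR
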