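import Pool.Agent.Lib.SHK.Defs
import Pool.Agent.Lib.MP_3ef1ab_nt.M.Gen

/-! MP_9a4459_nt, part SHR: Shanks's law `log p(g) ~ √g` for random sets of integers.

THEOREM. Let `ℱ` be a filtration, `A k` events with `A k ∈ ℱ k`, `ρ ≥ 0` periodic with mean 1 and
`A k = ∅` whenever `ρ k = 0`. If almost surely `log (k+1) * P(A (k+1) | ℱ k) - ρ (k+1) → 0`, then
almost surely Shanks's law holds, word for word as in S17861, for the set `{k : A k occurs}`, and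
every large `g` with `ρ a > 0` and `ρ (a+g) > 0` for some `a` occurs as a gap.

Notation in all modules: `X k ω = 1` if `ω ∈ A k`, else `0` (`Xi A` of `M/Gen.lean`), `q k ω` the
truncated conditional density (`Qc P ℱ A`), `Mod P ℱ X q` the structure of `M/Exp.lean`
(`Mod.markov`: `P.real {t ≤ Sx X q θ a n} ≤ exp (-t)`, where
`Sx X q θ a n = ∑_{i<n} (θ X(a+i+1) - (e^θ - 1) q(a+i+1))`). -/

set_option autoImplicit false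

namespace Pool.Agent.Lib.SHR

open Finset Filter Topology MeasureTheory
open Pool.Agent.Lib.MP_3ef1ab_nt Pool.Agent.Results.MP_9a4459_nt

/-- `ρ` is nonnegative and periodic mod `W ≥ 1` with mean 1. -/
structure Per (W : ℕ) (ρ : ℕ → ℝ) : Prop where
  W_pos : 0 < W
  nonneg : ∀ k, 0 ≤ ρ k
  per : ∀ k, ρ (k + W) = ρ k
  mean : ∑ k ∈ range W, ρ k = W

/-- Shanks's law for the set `Q`: for every `ε > 0` there is `G` such that for every gap size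
`g ≥ G` that occurs in `Q`, the first element `q` of `Q` whose preceding element is `q - g`
satisfies `|log q / √g - 1| < ε` (S17861 is this statement for the primes). -/
def ShanksLaw (Q : ℕ → Prop) : Prop :=
  ∀ ε : ℝ, 0 < ε → ∃ G : ℕ, ∀ g q : ℕ, G ≤ g →
    Q q →
    (∃ p : ℕ, Q p ∧ p + g = q ∧ ∀ m : ℕ, p < m → m < q → ¬ Q m) →
    (∀ q' : ℕ, q' < q → Q q' →
      ¬ ∃ p' : ℕ, Q p' ∧ p' + g = q' ∧ ∀ m : ℕ, p' < m → m < q' → ¬ Q m) →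
    |Real.log (q : ℝ) / Real.sqrt (g : ℝ) - 1| < ε

/-- length of the block used in the lower part -/
def nb (g : ℕ) : ℕ := g - 1 - Nat.sqrt g

/-! ### PER (about 90 lines): periodic weights

`S(s,n) = ∑_{i<n} ρ(s+i+1)`. `S(s,W) = W` for all `s` (induction on `s`:
`S(s+1,W) = S(s,W) - ρ(s+1) + ρ(s+1+W)`; the case `S(0,W)` from `mean` in the same way:
`∑_{i<W} ρ(i+1) = ∑_{i<W} ρ i - ρ 0 + ρ W`). `S(s,n+W) = S(s,n) + S(s+n,W) = S(s,n) + W`, so by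
strong induction on `n` (for `n < W`: `0 ≤ S(s,n) ≤ S(s,W) = W`) `n - W ≤ S(s,n) ≤ n + W`.
`ρ k ≤ W`: one summand of a full period (`k = W*(k/W) + k%W`). `δ`: the minimum of the positive
values among `ρ 0, .., ρ (W-1)` (a finite set, nonempty because of `mean`; or take
`δ = min` over the finset filter, 1 if empty). Reduction: `a' = a % W`. -/
def S_PER : Prop := ∀ (W : ℕ) (ρ : ℕ → ℝ), Per W ρ →
  (∀ s n : ℕ, (n : ℝ) - W ≤ ∑ i ∈ range n, ρ (s + i + 1) ∧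
    ∑ i ∈ range n, ρ (s + i + 1) ≤ (n : ℝ) + W) ∧
  (∃ δ : ℝ, 0 < δ ∧ ∀ k, 0 < ρ k → δ ≤ ρ k) ∧
  (∀ k, ρ k ≤ W) ∧
  (∀ k j : ℕ, ρ (W * j + k) = ρ k) ∧
  (∀ a g : ℕ, 0 < ρ a → 0 < ρ (a + g) → ∃ a' < W, 0 < ρ a' ∧ 0 < ρ (a' + g))

/-! ### PAT (about 130 lines): one window

`B k ∈ ℱ k`, pattern `τ`, `D ∈ ℱ n`; on `B (n+i)` the conditional probability of
`X (n+i+1) = τ i` is at least `b i`. Then the probability that `D` occurs, all `B (n+i)`, `i < L`,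
occur and the pattern is not realised on `(n, n+L]` is at most `(1 - ∏ b i) P(D)`.
PROOF. Base lemma: for `S ∈ ℱ k`, `P(S ∩ {X (k+1) = 1}) = ∫_S X (k+1) = ∫_S q (k+1)`
(`setIntegral_condExp` and `Mod.ce`), so `P(S ∩ {X (k+1) = 1}) ≥ b P(S)` if `q (k+1) ≥ b` on `S`,
and `P(S ∩ {X (k+1) = 0}) = P(S) - ∫_S q (k+1) ≥ b P(S)` if `1 - q (k+1) ≥ b` on `S`.
Let `Z i = D ∩ {ω | (∀ l < i, ω ∈ B (n+l)) → ∀ l < i, X (n+l+1) ω = τ l}`, `Z i ∈ ℱ (n+i)`.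
CLAIM `P(Z (i+1)) ≥ b i P(Z i)`. Let
`S = Z i ∩ (∀ l ≤ i, B (n+l)) ∩ (∀ l < i, X (n+l+1) = τ l) ∈ ℱ (n+i)`. Then
`(Z i \ S) ∪ (S ∩ {X (n+i+1) = τ i}) ⊆ Z (i+1)`, a disjoint union, so
`P(Z (i+1)) ≥ P(Z i) - P(S) + b i P(S) ≥ b i P(Z i)`. By induction
`P(Z L) ≥ (∏_{i<L} b i) P(D)`, and the event of the statement is `D \ Z L`. -/
def S_PAT.{u} : Prop := ∀ (Ω : Type u) (m0 : MeasurableSpace Ω) (P : Measure Ω)
  [IsProbabilityMeasure P] (ℱ : Filtration ℕ m0) (X q : ℕ → Ω → ℝ), Mod P ℱ X q →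
  ∀ (B : ℕ → Set Ω), (∀ k, MeasurableSet[ℱ k] (B k)) →
  ∀ (τ : ℕ → Bool) (b : ℕ → ℝ) (n L : ℕ) (D : Set Ω), MeasurableSet[ℱ n] D →
  (∀ i < L, 0 ≤ b i ∧ b i ≤ 1) →
  (∀ i < L, ∀ ω ∈ B (n + i), b i ≤ if τ i then q (n + i + 1) ω else 1 - q (n + i + 1) ω) →
  P.real (D ∩ {ω | (∀ i < L, ω ∈ B (n + i)) ∧
    ¬ ∀ i < L, X (n + i + 1) ω = if τ i then 1 else 0}) ≤
    (1 - ∏ i ∈ range L, b i) * P.real D

/-! ### WIN (about 80 lines, from S_PAT): successive windows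

`n j + L ≤ n (j+1)`. The event that in each of the windows `(n j, n j + L]`, `j < J`, all
`B (n j + i)` occur and the pattern is not realised has probability at most `(1 - Q)^J` if
`Q ≤ ∏_{i<L} b j i` for every `j < J`. PROOF: induction on `J`; the event
`D J = {∀ j < J, ..}` is in `ℱ (n J)` (it depends on times `≤ n (J-1) + L ≤ n J`), and
`D (J+1) = D J ∩ {..}`, so S_PAT gives `P(D (J+1)) ≤ (1 - ∏ b J i) P(D J) ≤ (1-Q) P(D J)`. -/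
def S_WIN.{u} : Prop := ∀ (Ω : Type u) (m0 : MeasurableSpace Ω) (P : Measure Ω)
  [IsProbabilityMeasure P] (ℱ : Filtration ℕ m0) (X q : ℕ → Ω → ℝ), Mod P ℱ X q →
  ∀ (B : ℕ → Set Ω), (∀ k, MeasurableSet[ℱ k] (B k)) →
  ∀ (τ : ℕ → Bool) (b : ℕ → ℕ → ℝ) (n : ℕ → ℕ) (L J : ℕ) (Q : ℝ), 0 ≤ Q → Q ≤ 1 →
  (∀ j, n j + L ≤ n (j + 1)) →
  (∀ j < J, ∀ i < L, 0 ≤ b j i ∧ b j i ≤ 1) →
  (∀ j < J, Q ≤ ∏ i ∈ range L, b j i) →
  (∀ j < J, ∀ i < L, ∀ ω ∈ B (n j + i),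
    b j i ≤ if τ i then q (n j + i + 1) ω else 1 - q (n j + i + 1) ω) →
  P.real {ω | ∀ j < J, (∀ i < L, ω ∈ B (n j + i)) ∧
    ¬ ∀ i < L, X (n j + i + 1) ω = if τ i then 1 else 0} ≤ (1 - Q) ^ J

/-! ### LOWP (about 80 lines): lower part, probability

For `θ` and `c > 0`: almost surely, for all large `g` and all `s ≤ exp (c √g)`:
`Sx X q θ s (nb g) < c √g + 2 log g`. PROOF. For fixed `g ≥ 1` the union over the at most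
`exp (c √g) + 1 ≤ 2 exp (c √g)` values of `s` of the events `{t ≤ Sx X q θ s (nb g)}`,
`t = c √g + 2 log g`, has probability at most `2 exp (c √g) exp (-t) = 2 / g^2` (`Mod.markov`);
Borel-Cantelli (`ae_eventually_notMem`), exactly as in `Mod.ae` of `M/Exp.lean`. -/
def S_LOWP.{u} : Prop := ∀ (Ω : Type u) (m0 : MeasurableSpace Ω) (P : Measure Ω)
  [IsProbabilityMeasure P] (ℱ : Filtration ℕ m0) (X q : ℕ → Ω → ℝ), Mod P ℱ X q →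
  ∀ θ c : ℝ, 0 < c → ∀ᵐ ω ∂P, ∀ᶠ g : ℕ in atTop, ∀ s : ℕ, (s : ℝ) ≤ Real.exp (c * √(g : ℝ)) →
    Sx X q θ s (nb g) ω < c * √(g : ℝ) + 2 * Real.log g

/-! ### LOWD (about 120 lines, from S_PER): lower part, deterministic

`x k ∈ {0,1}`, `q k ≥ 0`, `log k * q k - ρ k → 0`, `0 < c < 1`, `η = (1-c)/2`, `θ = log η`, and for
all large `g` and all `s ≤ exp (c √g)`:
`∑_{i < nb g} (θ x(s+i+1) - (e^θ - 1) q(s+i+1)) < c √g + 2 log g`. Then for all large `g` and all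
`m` such that `x` vanishes strictly between `m` and `m+g`: `c √g < log (m+g)`.
PROOF. Let `N ≥ 3` with `|log k * q k - ρ k| ≤ η` for `k ≥ N`; `g` so large that
`Nat.sqrt g ≥ N`. Suppose `log (m+g) ≤ c √g =: ℓ`, i.e. `m + g ≤ exp ℓ`. Put
`s = max m (Nat.sqrt g)`; `s ≤ m + g ≤ exp ℓ` and for `i < nb g`, `k = s+i+1` satisfies
`m < k < m+g` (if `s = Nat.sqrt g`: `k ≤ Nat.sqrt g + nb g = g - 1 < m+g`), so `x k = 0`, and
`N ≤ k ≤ exp ℓ`, so `0 < log k ≤ ℓ` and `q k ≥ (ρ k - η)/ℓ` (if `ρ k ≥ η` because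
`q k ≥ (ρ k - η)/log k`; otherwise because `q k ≥ 0`). Hence the sum of the hypothesis is
`(1 - η) ∑ q(s+i+1) ≥ (1-η) (nb g - W - η nb g)/ℓ ≥ (1-η) ((1-η) (g - 2 - √g) - W)/(c √g)` and this
is `≥ c √g + 2 log g` for large `g`, because `(1-η)^2/c > c` (as `1 - η > c`). Contradiction. -/
def S_LOWD : Prop := ∀ (W : ℕ) (ρ : ℕ → ℝ), Per W ρ → ∀ (x q : ℕ → ℝ),
  (∀ k, 0 ≤ q k) → Tendsto (fun k : ℕ => Real.log k * q k - ρ k) atTop (𝓝 0) →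
  ∀ c : ℝ, 0 < c → c < 1 →
  (∀ᶠ g : ℕ in atTop, ∀ s : ℕ, (s : ℝ) ≤ Real.exp (c * √(g : ℝ)) →
    ∑ i ∈ range (nb g), (Real.log ((1 - c) / 2) * x (s + i + 1) -
      ((1 - c) / 2 - 1) * q (s + i + 1)) < c * √(g : ℝ) + 2 * Real.log g) →
  ∀ᶠ g : ℕ in atTop, ∀ m : ℕ, (∀ k : ℕ, m < k → k < m + g → x k = 0) →
    c * √(g : ℝ) < Real.log ((m : ℝ) + g)

/-! ### ANA (about 130 lines): the numerical facts for the upper part

`y = ⌊exp (c1 √g)⌋₊`. All are standard limits (put `t = √g → ∞`; `exp (κ t)` beats polynomials in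
`t`, `log g = 2 log t = o(t)`). (a) because `c0 < c1`; (b) `W (y + y (g+1)) + W + g + 1 ≤
exp (c1 t) (W (g + 2) + W + g + 1) ≤ exp (c2 t)`; (c) the exponent on the right is
`-(1+η)^2 t/c0 - O(1/t)` and `(1+η)^2 < c0`; (d) `y exp (-t) ≥ exp ((c0-1) t) ≥ 2 log g` by (a);
(e), (f) the left sides tend to 0. -/
def S_ANA : Prop := ∀ (W : ℕ) (δ η c0 c1 c2 : ℝ), 0 < W → 0 < δ → 0 < η → 1 < c0 → c0 < c1 →
  c1 < c2 → (1 + η) ^ 2 < c0 → ∀ᶠ g : ℕ in atTop,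
    Real.exp (c0 * √(g : ℝ)) ≤ (⌊Real.exp (c1 * √(g : ℝ))⌋₊ : ℝ) ∧
    Real.log ((W : ℝ) * (⌊Real.exp (c1 * √(g : ℝ))⌋₊ * (g + 2)) + W + g + 1) ≤ c2 * √(g : ℝ) ∧
    Real.exp (-√(g : ℝ)) ≤ (δ / (2 * (c2 * √(g : ℝ)))) ^ 2 *
      Real.exp (-((1 + η) * (((1 + η) * g + W) / (c0 * √(g : ℝ))))) ∧
    Real.exp (-((⌊Real.exp (c1 * √(g : ℝ))⌋₊ : ℝ) * Real.exp (-√(g : ℝ)))) ≤ 1 / (g : ℝ) ^ 2 ∧
    (W + η) / (c0 * √(g : ℝ)) ≤ η / (1 + η) ∧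
    δ / (2 * (c2 * √(g : ℝ))) ≤ 1

/-! ### UPP (about 150 lines, from S_PER, S_WIN, S_ANA): upper part, one `g`

`B k = {ω | |log (k+1) * q (k+1) ω - ρ (k+1)| ≤ η}`, in `ℱ k` (`Mod.mq`). For large `g` and every
`a < W` with `ρ a > 0`, `ρ (a+g) > 0`: let `y = ⌊exp (c1 √g)⌋₊` and let the windows be
`m j = W (y + j (g+1)) + a`, `j < y`, positions `m j, .., m j + g` (`n j = m j - 1`,
`L = g + 1`, `m j ≥ 1`). The event `NoGap g a`: all `B (m j - 1 + i)`, `j < y`, `i ≤ g`, occur and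
for no `j < y` we have `X (m j) = 1`, `X = 0` strictly between, `X (m j + g) = 1`. Then
`P(NoGap g a) ≤ 1 / g^2`.
PROOF. S_WIN with `τ i = (i = 0 ∨ i = g)`, `Q = exp (-√g)`, `b j i = δ/(2 c2 √g)` for `i = 0, g`,
`b j i = exp (-(1+η) (ρ (m j + i) + η)/(c0 √g))` for `0 < i < g`. All `k = m j + i` satisfy
`c0 √g ≤ log y ≤ log k ≤ c2 √g` (ANA (a), (b)). On `B (k-1)`: `q k ≤ (ρ k + η)/(c0 √g) =: h ≤
(W+η)/(c0 √g) ≤ η/(1+η)`, so `1/(1-h) ≤ 1+η` and `1 - q k ≥ 1 - h ≥ exp (-h/(1-h)) ≥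
exp (-(1+η) h)` (from `1 + u ≤ exp u` for `u = h/(1-h)`); and for `k = m j, m j + g` one has
`ρ k = ρ a, ρ (a+g) ≥ δ` (PER), `η ≤ δ/2`, so `q k ≥ (ρ k - η)/log k ≥ (δ/2)/(c2 √g)`. Product:
`∏_{0<i<g} b j i ≥ exp (-(1+η) ((1+η) g + W)/(c0 √g))` because
`∑_{0<i<g} (ρ (m j + i) + η) ≤ (g - 1) + W + η (g-1) ≤ (1+η) g + W` (PER), and ANA (c). Finally
`(1-Q)^y ≤ exp (-y Q) ≤ 1/g^2` by ANA (d). -/
def NoGap {Ω : Type*} (X q : ℕ → Ω → ℝ) (ρ : ℕ → ℝ) (η : ℝ) (W y g a : ℕ) : Set Ω :=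
  {ω | ∀ j < y, (∀ i < g + 1, |Real.log ((W * (y + j * (g + 1)) + a + i : ℕ) : ℝ) *
      q (W * (y + j * (g + 1)) + a + i) ω - ρ (W * (y + j * (g + 1)) + a + i)| ≤ η) ∧
    ¬ (X (W * (y + j * (g + 1)) + a) ω = 1 ∧
      (∀ i, 0 < i → i < g → X (W * (y + j * (g + 1)) + a + i) ω = 0) ∧
      X (W * (y + j * (g + 1)) + a + g) ω = 1)}

def S_UPP.{u} : Prop := ∀ (Ω : Type u) (m0 : MeasurableSpace Ω) (P : Measure Ω)
  [IsProbabilityMeasure P] (ℱ : Filtration ℕ m0) (X q : ℕ → Ω → ℝ), Mod P ℱ X q →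
  ∀ (W : ℕ) (ρ : ℕ → ℝ), Per W ρ → ∀ (δ η c0 c1 c2 : ℝ), (∀ k, 0 < ρ k → δ ≤ ρ k) → 0 < δ →
  0 < η → η ≤ δ / 2 → 1 < c0 → c0 < c1 → c1 < c2 → (1 + η) ^ 2 < c0 →
  ∀ᶠ g : ℕ in atTop, ∀ a < W, 0 < ρ a → 0 < ρ (a + g) →
    P.real (NoGap X q ρ η W ⌊Real.exp (c1 * √(g : ℝ))⌋₊ g a) ≤ 1 / (g : ℝ) ^ 2

/-! ### UP (about 130 lines, from S_PER, S_UPP, S_ANA): upper part

For `c > 1`: almost surely, for all large `g` with `ρ a > 0`, `ρ (a+g) > 0` for some `a`, there is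
`m` with `X m = 1`, `X = 0` strictly between `m` and `m+g`, `X (m+g) = 1` and `log (m+g) < c √g`.
PROOF. `c2 = (1 + c)/2 + ..`: choose `1 < c0 < c1 < c2 < c`, `δ` from PER, `η ≤ δ/2` with
`(1+η)^2 < c0`. By S_UPP the events `⋃_{a<W, ρ a > 0, ρ (a+g) > 0} NoGap g a` have probability
`≤ W/g^2` for large `g`, so (Borel-Cantelli) almost surely none of them occurs for large `g`. Fix
such an `ω` for which moreover `|log k * q k - ρ k| ≤ η` for `k ≥ N`. For large `g`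
`y = ⌊exp (c1 √g)⌋₊ ≥ exp (c0 √g) ≥ N`, so all `k` in the windows (`k ≥ W y ≥ N`) satisfy the
inequality, and since `NoGap g a` does not occur some `j < y` gives the gap, `m = W (y + j (g+1)) +
a`; `m + g ≤ W (y + y (g+1)) + W + g`, and `log (m+g) ≤ c2 √g < c √g` by ANA (b). -/
def S_UP.{u} : Prop := ∀ (Ω : Type u) (m0 : MeasurableSpace Ω) (P : Measure Ω)
  [IsProbabilityMeasure P] (ℱ : Filtration ℕ m0) (X q : ℕ → Ω → ℝ), Mod P ℱ X q →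
  ∀ (W : ℕ) (ρ : ℕ → ℝ), Per W ρ →
  (∀ᵐ ω ∂P, Tendsto (fun k : ℕ => Real.log k * q k ω - ρ k) atTop (𝓝 0)) →
  ∀ c : ℝ, 1 < c → ∀ᵐ ω ∂P, ∀ᶠ g : ℕ in atTop, (∃ a, 0 < ρ a ∧ 0 < ρ (a + g)) →
    ∃ m : ℕ, X m ω = 1 ∧ (∀ k : ℕ, m < k → k < m + g → X k ω = 0) ∧ X (m + g) ω = 1 ∧
      Real.log ((m : ℝ) + g) < c * √(g : ℝ)

/-! ### FIN (about 120 lines, from S_LOWP, S_LOWD, S_UP): the theorem

`X = Xi A`, `q = Qc P ℱ A`, `mod_of` and `Qc_ae` of `M/Gen.lean`. For `c = 1 - 1/(j+2)` LOWP with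
`θ = log ((1-c)/2)` and LOWD, for `c = 1 + 1/(j+1)` UP; almost surely for all `j`. Given `ε`,
choose `j` with `1/(j+1) < ε`. If `(p, q)`, `q = p + g`, is the first gap of size `g ≥ 1` then
`ρ p > 0` and `ρ (p+g) > 0` (otherwise `A p` or `A q` is empty), so UP gives a gap `(m, m+g)` with
`log (m+g) < (1+1/(j+1)) √g`, and `q ≤ m+g` as `q` is the first one; LOWD for `m = p` gives
`log q > (1 - 1/(j+2)) √g`. -/
def S_FIN.{u} : Prop := ∀ (Ω : Type u) (m0 : MeasurableSpace Ω) (P : Measure Ω)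
  [IsProbabilityMeasure P] (ℱ : Filtration ℕ m0) (A : ℕ → Set Ω),
  (∀ k, MeasurableSet[ℱ k] (A k)) → ∀ (W : ℕ) (ρ : ℕ → ℝ), Per W ρ → (∀ k, ρ k = 0 → A k = ∅) →
  (∀ᵐ ω ∂P, Tendsto (fun k : ℕ => Real.log ((k + 1 : ℕ) : ℝ) *
    (P[(A (k + 1)).indicator (fun _ => (1 : ℝ)) | ℱ k]) ω - ρ (k + 1)) atTop (𝓝 0)) →
  ∀ᵐ ω ∂P, ShanksLaw (fun k => ω ∈ A k) ∧
    ∃ G : ℕ, ∀ g : ℕ, G ≤ g → (∃ a, 0 < ρ a ∧ 0 < ρ (a + g)) →
      ∃ m : ℕ, Consec (fun k => ω ∈ A k) m (m + g)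

end Pool.Agent.Lib.SHR
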